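import Pool.Agent.Helper61_LT.Defs

/-!
# LT: toolkit for ranks and for `Bd`
-/

set_option autoImplicit false
set_option linter.unusedSectionVars false

namespace Pool.Agent.LT

open Matrix

section rank

variable {α β γ : Type} [Fintype α] [Fintype β] [Fintype γ]

theorem rk_add (A B : Matrix α β ℝ) : (A + B).rank ≤ A.rank + B.rank := by
  unfold Matrix.rank
  rw [Matrix.mulVecLin_add]
  refine (Submodule.finrank_mono ?_).trans (Submodule.finrank_add_le_finrank_add_finrank _ _)
  rintro x ⟨y, rfl⟩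
  exact Submodule.add_mem_sup ⟨y, rfl⟩ ⟨y, rfl⟩

theorem rk_neg (A : Matrix α β ℝ) : (-A).rank = A.rank := by
  apply le_antisymm
  · classical
    have h : -A = A * (-1 : Matrix β β ℝ) := by simp
    rw [h]
    exact Matrix.rank_mul_le_left _ _
  · classical
    have h : A = (-A) * (-1 : Matrix β β ℝ) := by simp
    conv_lhs => rw [h]
    exact Matrix.rank_mul_le_left _ _

theorem rk_sub (A B : Matrix α β ℝ) : (A - B).rank ≤ A.rank + B.rank := by
  rw [sub_eq_add_neg]
  refine (rk_add _ _).trans ?_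
  rw [rk_neg]

theorem rk_comm (A B : Matrix α β ℝ) : (A - B).rank = (B - A).rank := by
  rw [← rk_neg, neg_sub]

theorem rk_trans (A B C : Matrix α β ℝ) : (A - C).rank ≤ (A - B).rank + (B - C).rank := by
  have h : A - C = (A - B) + (B - C) := by abel
  rw [h]
  exact rk_add _ _

theorem rk_le_of_near (A B : Matrix α β ℝ) : A.rank ≤ B.rank + (A - B).rank := by
  have h : A = B + (A - B) := by abel
  conv_lhs => rw [h]
  exact rk_add _ _

/-- Near matrices can be multiplied. -/
theorem rk_mul (A A' : Matrix α β ℝ) (B B' : Matrix β γ ℝ) :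
    (A * B - A' * B').rank ≤ (A - A').rank + (B - B').rank := by
  have h : A * B - A' * B' = (A - A') * B + A' * (B - B') := by
    rw [Matrix.sub_mul, Matrix.mul_sub]
    abel
  rw [h]
  refine (rk_add _ _).trans (add_le_add (Matrix.rank_mul_le_left _ _) (Matrix.rank_mul_le_right _ _))

theorem rk_add_near (A A' B B' : Matrix α β ℝ) :
    ((A + B) - (A' + B')).rank ≤ (A - A').rank + (B - B').rank := by
  have h : (A + B) - (A' + B') = (A - A') + (B - B') := by abel
  rw [h]
  exact rk_add _ _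

theorem rk_sub_near (A A' B B' : Matrix α β ℝ) :
    ((A - B) - (A' - B')).rank ≤ (A - A').rank + (B - B').rank := by
  have h : (A - B) - (A' - B') = (A - A') - (B - B') := by abel
  rw [h]
  exact rk_sub _ _

theorem rk_pow [DecidableEq α] (A B : Matrix α α ℝ) (k : ℕ) :
    (A ^ k - B ^ k).rank ≤ k * (A - B).rank := by
  induction k with
  | zero => simp
  | succ k ih =>
    rw [pow_succ, pow_succ]
    refine (rk_mul _ _ _ _).trans ?_
    calc _ ≤ k * (A - B).rank + (A - B).rank := by gcongr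
      _ = _ := by ring

theorem rk_sum {ι : Type} (s : Finset ι) (A : ι → Matrix α β ℝ) :
    (∑ i ∈ s, A i).rank ≤ ∑ i ∈ s, (A i).rank := by
  classical
  induction s using Finset.induction_on with
  | empty => simp
  | insert i s hi ih =>
    rw [Finset.sum_insert hi, Finset.sum_insert hi]
    exact (rk_add _ _).trans (by gcongr)

/-- A matrix whose columns outside `s` are zero. -/
theorem rk_cols (A : Matrix α β ℝ) (s : Finset β) (h : ∀ b, b ∉ s → ∀ a, A a b = 0) :
    A.rank ≤ s.card := by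
  rw [← Matrix.rank_transpose]
  apply Matrix.rank_le_card_of_support_subset
  intro b hb
  by_contra hbs
  apply hb
  ext a
  exact h b hbs a

/-- A matrix whose rows outside `s` are zero. -/
theorem rk_rows (A : Matrix α β ℝ) (s : Finset α) (h : ∀ a, a ∉ s → ∀ b, A a b = 0) :
    A.rank ≤ s.card := by
  apply Matrix.rank_le_card_of_support_subset
  intro a ha
  by_contra has
  apply ha
  ext b
  exact h a has b

end rank

section bd

variable {α β γ : Type} [Fintype α] [Fintype β] [Fintype γ]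

open scoped Matrix.Norms.L2Operator

theorem dot_self_eq (x : α → ℝ) : x ⬝ᵥ x = ‖(WithLp.toLp 2 x : EuclideanSpace ℝ α)‖ ^ 2 := by
  rw [EuclideanSpace.norm_eq, Real.sq_sqrt (Finset.sum_nonneg fun _ _ => by positivity)]
  simp [dotProduct, sq]

theorem dot_self_nonneg (x : α → ℝ) : 0 ≤ x ⬝ᵥ x := by
  rw [dot_self_eq]
  positivity

/-- `Bd` is a bound for the operator norm. -/
theorem bd_iff [DecidableEq β] (A : Matrix α β ℝ) {K : ℝ} (hK : 0 ≤ K) : Bd A K ↔ ‖A‖ ≤ K := by
  constructor
  · intro h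
    rw [Matrix.l2_opNorm_def]
    apply ContinuousLinearMap.opNorm_le_bound _ hK
    intro x
    have h1 := h x.ofLp
    rw [dot_self_eq, dot_self_eq] at h1
    have h2 : ‖(WithLp.toLp 2 (A *ᵥ x.ofLp) : EuclideanSpace ℝ α)‖ ≤ K * ‖x‖ := by
      apply le_of_sq_le_sq _ (by positivity)
      rw [mul_pow]
      exact h1
    exact h2
  · intro h x
    rw [dot_self_eq, dot_self_eq, ← mul_pow]
    have h1 := Matrix.l2_opNorm_mulVec A (WithLp.toLp 2 x : EuclideanSpace ℝ β)
    have h2 : ‖(WithLp.toLp 2 (A *ᵥ x) : EuclideanSpace ℝ α)‖ ≤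
        ‖A‖ * ‖(WithLp.toLp 2 x : EuclideanSpace ℝ β)‖ := h1
    have h3 : ‖(WithLp.toLp 2 (A *ᵥ x) : EuclideanSpace ℝ α)‖ ≤
        K * ‖(WithLp.toLp 2 x : EuclideanSpace ℝ β)‖ :=
      h2.trans (mul_le_mul_of_nonneg_right h (norm_nonneg _))
    exact pow_le_pow_left₀ (norm_nonneg _) h3 2

theorem Bd.mono {A : Matrix α β ℝ} {K L : ℝ} (h : Bd A K) (hK : 0 ≤ K) (hL : K ≤ L) :
    Bd A L := fun x => (h x).trans
  (mul_le_mul_of_nonneg_right (pow_le_pow_left₀ hK hL 2) (dot_self_nonneg x))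

theorem bd_zero (K : ℝ) : Bd (0 : Matrix α β ℝ) K := by
  intro x
  rw [Matrix.zero_mulVec, zero_dotProduct]
  exact mul_nonneg (sq_nonneg _) (dot_self_nonneg x)

theorem bd_one [DecidableEq α] : Bd (1 : Matrix α α ℝ) 1 := by
  intro x
  simp

theorem Bd.neg {A : Matrix α β ℝ} {K : ℝ} (h : Bd A K) : Bd (-A) K := by
  intro x
  rw [Matrix.neg_mulVec, neg_dotProduct_neg]
  exact h x

theorem Bd.add {A B : Matrix α β ℝ} {K L : ℝ} (hA : Bd A K) (hB : Bd B L) (hK : 0 ≤ K)
    (hL : 0 ≤ L) : Bd (A + B) (K + L) := by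
  classical
  rw [bd_iff _ (add_nonneg hK hL)]
  rw [bd_iff _ hK] at hA
  rw [bd_iff _ hL] at hB
  exact (norm_add_le _ _).trans (add_le_add hA hB)

theorem Bd.sub {A B : Matrix α β ℝ} {K L : ℝ} (hA : Bd A K) (hB : Bd B L) (hK : 0 ≤ K)
    (hL : 0 ≤ L) : Bd (A - B) (K + L) := by
  rw [sub_eq_add_neg]
  exact hA.add hB.neg hK hL

theorem Bd.mul {A : Matrix α β ℝ} {B : Matrix β γ ℝ} {K L : ℝ} (hA : Bd A K) (hB : Bd B L) :
    Bd (A * B) (K * L) := by
  intro x
  rw [← Matrix.mulVec_mulVec]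
  refine (hA _).trans ?_
  rw [mul_pow, mul_assoc]
  exact mul_le_mul_of_nonneg_left (hB x) (sq_nonneg K)

theorem Bd.pow [DecidableEq α] {A : Matrix α α ℝ} {K : ℝ} (hA : Bd A K) (k : ℕ) :
    Bd (A ^ k) (K ^ k) := by
  induction k with
  | zero => simpa using bd_one
  | succ k ih =>
    rw [pow_succ, pow_succ]
    exact ih.mul hA

theorem Bd.smul {A : Matrix α β ℝ} {K : ℝ} (hA : Bd A K) (c : ℝ) : Bd (c • A) (|c| * K) := by
  intro x
  rw [Matrix.smul_mulVec, smul_dotProduct, dotProduct_smul, smul_eq_mul, smul_eq_mul, mul_pow,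
    sq_abs]
  nlinarith [hA x, sq_nonneg c]

theorem Bd.transpose {A : Matrix α β ℝ} {K : ℝ} (hK : 0 ≤ K) (hA : Bd A K) : Bd Aᵀ K := by
  classical
  rw [bd_iff _ hK] at hA ⊢
  rw [← Matrix.conjTranspose_eq_transpose_of_trivial, Matrix.l2_opNorm_conjTranspose]
  exact hA

/-- Entries. -/
theorem Bd.entry {A : Matrix α β ℝ} {K : ℝ} (hK : 0 ≤ K) (hA : Bd A K) (a : α) (b : β) :
    |A a b| ≤ K := by
  classical
  have h := hA (Pi.single b 1)
  rw [Matrix.mulVec_single_one] at h
  have h1 : (Pi.single b (1 : ℝ) : β → ℝ) ⬝ᵥ (Pi.single b 1) = 1 := by simp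
  rw [h1, mul_one] at h
  have h2 : (A a b) ^ 2 ≤ (A.col b) ⬝ᵥ (A.col b) := by
    rw [dotProduct, sq]
    exact Finset.single_le_sum (f := fun i => A.col b i * A.col b i)
      (fun i _ => mul_self_nonneg _) (Finset.mem_univ a)
  exact abs_le_of_sq_le_sq (h2.trans h) hK

/-- Submatrices along injective maps. -/
theorem Bd.submatrix {α' β' : Type} [Fintype α'] [Fintype β'] {A : Matrix α β ℝ} {K : ℝ}
    (hA : Bd A K) {f : α' → α} {g : β' → β} (hf : Function.Injective f)
    (hg : Function.Injective g) : Bd (A.submatrix f g) K := by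
  classical
  intro x
  let y : β → ℝ := fun b => ∑ b', if g b' = b then x b' else 0
  have hy : ∀ b', y (g b') = x b' := by
    intro b'
    simp only [y]
    rw [Finset.sum_eq_single b']
    · simp
    · intro c _ hc
      rw [if_neg]
      intro h
      exact hc (hg h)
    · intro h
      exact absurd (Finset.mem_univ _) h
  have hy0 : ∀ b, b ∉ Set.range g → y b = 0 := by
    intro b hb
    apply Finset.sum_eq_zero
    intro b' _
    rw [if_neg]
    intro h
    exact hb ⟨b', h⟩
  have hyy : y ⬝ᵥ y = x ⬝ᵥ x := by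
    unfold dotProduct
    symm
    apply Finset.sum_of_injOn g hg.injOn (fun _ _ => by simp)
    · intro b _ hb
      rw [hy0 b (by simpa using hb)]
      simp
    · intro b' _
      rw [hy]
  have hAy : ∀ a', (A.submatrix f g *ᵥ x) a' = (A *ᵥ y) (f a') := by
    intro a'
    unfold Matrix.mulVec dotProduct
    apply Finset.sum_of_injOn g hg.injOn (fun _ _ => by simp)
    · intro b _ hb
      rw [hy0 b (by simpa using hb), mul_zero]
    · intro b' _
      rw [hy]
      rfl
  calc (A.submatrix f g *ᵥ x) ⬝ᵥ (A.submatrix f g *ᵥ x)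
      = ∑ a', (A *ᵥ y) (f a') * (A *ᵥ y) (f a') := by
        unfold dotProduct
        exact Finset.sum_congr rfl fun a' _ => by rw [hAy]
    _ = ∑ a ∈ Finset.univ.image f, (A *ᵥ y) a * (A *ᵥ y) a := by
        rw [Finset.sum_image fun a _ b _ h => hf h]
    _ ≤ (A *ᵥ y) ⬝ᵥ (A *ᵥ y) := by
        unfold dotProduct
        exact Finset.sum_le_sum_of_subset_of_nonneg (Finset.subset_univ _)
          fun _ _ _ => mul_self_nonneg _
    _ ≤ K ^ 2 * (y ⬝ᵥ y) := hA y
    _ = K ^ 2 * (x ⬝ᵥ x) := by rw [hyy]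

end bd

section cst

variable {α β γ : Type} [Fintype α] [Fintype β] [Fintype γ]

theorem cst_mul (A : Matrix α β ℤ) (B : Matrix β γ ℤ) : cst (A * B) = cst A * cst B := by
  ext i j
  simp [cst, Matrix.mul_apply]

theorem cst_add {α β : Type} (A B : Matrix α β ℤ) : cst (A + B) = cst A + cst B := by
  ext i j
  simp [cst]

theorem cst_sub {α β : Type} (A B : Matrix α β ℤ) : cst (A - B) = cst A - cst B := by
  ext i j
  simp [cst]

theorem cst_neg {α β : Type} (A : Matrix α β ℤ) : cst (-A) = -cst A := by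
  ext i j
  simp [cst]

theorem cst_zero {α β : Type} : cst (0 : Matrix α β ℤ) = 0 := by
  ext i j
  simp [cst]

theorem cst_one {α : Type} [DecidableEq α] : cst (1 : Matrix α α ℤ) = 1 := by
  ext i j
  simp only [cst, Matrix.map_apply, Matrix.one_apply]
  split_ifs <;> simp

theorem cst_transpose {α β : Type} (A : Matrix α β ℤ) : cst Aᵀ = (cst A)ᵀ := rfl

theorem cst_submatrix {α β α' β' : Type} (A : Matrix α β ℤ) (f : α' → α) (g : β' → β) :
    cst (A.submatrix f g) = (cst A).submatrix f g := rfl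

theorem cst_det [DecidableEq α] (A : Matrix α α ℤ) : (cst A).det = (A.det : ℝ) := by
  have h := (Int.castRingHom ℝ).map_det A
  simpa [cst, RingHom.mapMatrix_apply] using h.symm

theorem HS_nonneg (A : Matrix α β ℤ) : 0 ≤ HS A :=
  Finset.sum_nonneg fun _ _ => Finset.sum_nonneg fun _ _ => sq_nonneg _

end cst

end Pool.Agent.LT
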