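import Pool.Agent.Helper61_LT.Stmts
import Pool.Agent.Helper61_LT.Tools

/-!
# LT: CUR. Maximal nonsingular minors.
-/

set_option autoImplicit false

namespace Pool.Agent.LT.H61

open Matrix

theorem cur_real {α β : Type} [Fintype α] [Fintype β] [DecidableEq α] [DecidableEq β]
    (A : Matrix α β ℝ) : ∃ (k : ℕ) (J : Fin k → α) (I : Fin k → β), Function.Injective J ∧
    Function.Injective I ∧ (A.submatrix J I).det ≠ 0 ∧
    A = A.submatrix id I * (A.submatrix J I)⁻¹ * A.submatrix J id := by
  classical
  obtain ⟨κ, a, ha, hspan, hli⟩ := exists_linearIndependent' ℝ (fun i : α => A i)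
  have hfin : Finite κ := Finite.of_injective a ha
  have := Fintype.ofFinite κ
  obtain ⟨κ', b, hb, hspan', hli'⟩ := exists_linearIndependent' ℝ (fun j : β => fun i : κ => A (a i) j)
  have hfin' : Finite κ' := Finite.of_injective b hb
  have := Fintype.ofFinite κ'
  -- the two index sets have the same number of elements
  have hcard : Fintype.card κ' = Fintype.card κ := by
    have h1 : (A.submatrix a id).rank = Fintype.card κ := LinearIndependent.rank_matrix hli
    have h2 : (A.submatrix a id).rank = Fintype.card κ' := by
      rw [Matrix.rank_eq_finrank_span_cols]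
      have h3 : Submodule.span ℝ (Set.range (A.submatrix a id).col) =
          Submodule.span ℝ (Set.range ((fun j : β => fun i : κ => A (a i) j) ∘ b)) := hspan'.symm
      rw [h3]
      exact finrank_span_eq_card hli'
    omega
  set k := Fintype.card κ with hk
  let e : Fin k ≃ κ := (Fintype.equivFin κ).symm
  let e' : Fin k ≃ κ' := (Fintype.equivFinOfCardEq hcard).symm
  refine ⟨k, fun i => a (e i), fun i => b (e' i), ha.comp e.injective, hb.comp e'.injective, ?_, ?_⟩
  · -- the minor is not singular
    have h1 : LinearIndependent ℝ ((A.submatrix (fun i => a (e i)) (fun i => b (e' i)))ᵀ).row := by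
      have h2 := hli'.comp e' e'.injective
      have h3 := h2.map' (LinearMap.funLeft ℝ ℝ e) (by
        rw [LinearMap.ker_eq_bot]
        exact LinearMap.funLeft_injective_of_surjective ℝ ℝ e e.surjective)
      exact h3
    have h4 := (Matrix.linearIndependent_rows_iff_isUnit).mp h1
    rw [Matrix.isUnit_iff_isUnit_det, Matrix.det_transpose] at h4
    exact h4.ne_zero
  · set M := A.submatrix (fun i => a (e i)) (fun i => b (e' i)) with hM
    have hX : ∀ i : α, ∃ c : κ → ℝ, ∑ x, c x • A (a x) = A i := by
      intro i
      have h1 : A i ∈ Submodule.span ℝ (Set.range ((fun i : α => A i) ∘ a)) := by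
        rw [hspan]
        exact Submodule.subset_span ⟨i, rfl⟩
      exact (Submodule.mem_span_range_iff_exists_fun ℝ).mp h1
    choose X hX using hX
    let Y : Matrix α (Fin k) ℝ := fun i j => X i (e j)
    have hY : A = Y * A.submatrix (fun i => a (e i)) id := by
      ext i j
      rw [Matrix.mul_apply]
      have h1 := congrFun (hX i) j
      rw [Finset.sum_apply] at h1
      rw [← h1, ← Equiv.sum_comp e]
      rfl
    have hYM : A.submatrix id (fun i => b (e' i)) = Y * M := by
      conv_lhs => rw [hY]
      rfl
    have hdet : IsUnit M.det := by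
      have h1 : LinearIndependent ℝ ((A.submatrix (fun i => a (e i)) (fun i => b (e' i)))ᵀ).row := by
        have h2 := hli'.comp e' e'.injective
        have h3 := h2.map' (LinearMap.funLeft ℝ ℝ e) (by
          rw [LinearMap.ker_eq_bot]
          exact LinearMap.funLeft_injective_of_surjective ℝ ℝ e e.surjective)
        exact h3
      have h4 := (Matrix.linearIndependent_rows_iff_isUnit).mp h1
      rw [Matrix.isUnit_iff_isUnit_det, Matrix.det_transpose] at h4
      exact h4
    rw [hYM, Matrix.mul_assoc Y, Matrix.mul_nonsing_inv _ hdet, Matrix.mul_one, ← hY]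

theorem cur : CurStmt := by
  intro α β _ _ _ _ A
  obtain ⟨k, J, I, hJ, hI, hdet, heq⟩ := cur_real (cst A)
  refine ⟨k, J, I, hJ, hI, ?_, ?_⟩
  · intro h0
    apply hdet
    rw [← cst_submatrix, cst_det, h0, Int.cast_zero]
  · rw [cst_submatrix]
    exact heq

end Pool.Agent.LT.H61
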