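import Pool.Agent.Helper61_LT.Stmts

/-!
# LT: SOF. Sofic groups have finite models.
-/

set_option autoImplicit false

namespace Pool.Agent.LT.H61

theorem sof : SofStmt := by
  classical
  intro G _ hG R ε hε
  set E : Finset G := insert 1 (R.image (fun g => g⁻¹) ∪ (R ×ˢ R).image (fun p => p.1⁻¹ * p.2))
    with hE
  set c : ℝ := 1 + 3 * ((R.card : ℝ) * R.card) with hc
  have hc0 : 0 < c := by positivity
  obtain ⟨n, σ, hn, hmul, hfix⟩ := hG E (ε / c) (by positivity)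
  have h1E : (1 : G) ∈ E := Finset.mem_insert_self _ _
  have hinvE : ∀ g ∈ R, g⁻¹ ∈ E := fun g hg =>
    Finset.mem_insert_of_mem (Finset.mem_union_left _ (Finset.mem_image_of_mem _ hg))
  have hdivE : ∀ g ∈ R, ∀ h ∈ R, g⁻¹ * h ∈ E := fun g hg h hh =>
    Finset.mem_insert_of_mem (Finset.mem_union_right _
      (Finset.mem_image.mpr ⟨(g, h), Finset.mem_product.mpr ⟨hg, hh⟩, rfl⟩))
  refine ⟨n, fun v g => σ g⁻¹ v, hn, fun g => (σ g⁻¹).bijective, ?_⟩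
  -- the three kinds of bad sets
  let A0 : Set (Fin n) := {v | σ 1 (σ 1 v) ≠ σ (1 * 1) v}
  let A1 : G × G → Set (Fin n) := fun p => {v | σ p.2⁻¹ (σ p.1⁻¹ v) ≠ σ (p.2⁻¹ * p.1⁻¹) v}
  let A2 : G × G → Set (Fin n) := fun p => {v | σ (p.1⁻¹ * p.2) (σ p.2⁻¹ v) ≠ σ (p.1⁻¹ * p.2 * p.2⁻¹) v}
  let A3 : G × G → Set (Fin n) := fun p =>
    if p.1 = p.2 then ∅ else (σ p.2⁻¹) ⁻¹' {v | σ (p.1⁻¹ * p.2) v = v}
  have hsub : (Gd (fun v g => σ g⁻¹ v) R)ᶜ ⊆ A0 ∪ ⋃ p ∈ R ×ˢ R, (A1 p ∪ (A2 p ∪ A3 p)) := by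
    intro v hv
    by_contra hcon
    rw [Set.mem_union, not_or] at hcon
    obtain ⟨h0, h1⟩ := hcon
    apply hv
    have h1' : ∀ p ∈ R ×ˢ R, v ∉ A1 p ∧ v ∉ A2 p ∧ v ∉ A3 p := by
      intro p hp
      refine ⟨fun h => h1 ?_, fun h => h1 ?_, fun h => h1 ?_⟩
      · exact Set.mem_iUnion₂.mpr ⟨p, hp, Or.inl h⟩
      · exact Set.mem_iUnion₂.mpr ⟨p, hp, Or.inr (Or.inl h)⟩
      · exact Set.mem_iUnion₂.mpr ⟨p, hp, Or.inr (Or.inr h)⟩
    refine ⟨?_, ?_, ?_⟩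
    · have h2 : σ 1 (σ 1 v) = σ 1 v := by
        have := not_not.mp h0
        rwa [mul_one] at this
      have h3 := (σ 1).injective h2
      change σ 1⁻¹ v = v
      rw [inv_one]
      exact h3
    · intro g hg h hh
      have h2 := not_not.mp (h1' (g, h) (Finset.mem_product.mpr ⟨hg, hh⟩)).1
      change σ h⁻¹ (σ g⁻¹ v) = σ (g * h)⁻¹ v
      rw [mul_inv_rev]
      exact h2
    · intro g hg h hh hgh
      by_contra hne
      obtain ⟨-, h2, h3⟩ := h1' (g, h) (Finset.mem_product.mpr ⟨hg, hh⟩)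
      have h4 := not_not.mp h2
      apply h3
      change v ∈ (if g = h then (∅ : Set (Fin n)) else _)
      rw [if_neg hne]
      change σ (g⁻¹ * h) (σ h⁻¹ v) = σ h⁻¹ v
      have h5 : σ (g⁻¹ * h) (σ h⁻¹ v) = σ (g⁻¹ * h * h⁻¹) v := h4
      rw [h5, mul_inv_cancel_right]
      exact hgh
  have hb0 : (A0.ncard : ℝ) ≤ ε / c * n := hmul 1 h1E 1 h1E
  have hb1 : ∀ p ∈ R ×ˢ R, ((A1 p).ncard : ℝ) ≤ ε / c * n := fun p hp =>
    hmul _ (hinvE _ (Finset.mem_product.mp hp).2) _ (hinvE _ (Finset.mem_product.mp hp).1)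
  have hb2 : ∀ p ∈ R ×ˢ R, ((A2 p).ncard : ℝ) ≤ ε / c * n := fun p hp =>
    hmul _ (hdivE _ (Finset.mem_product.mp hp).1 _ (Finset.mem_product.mp hp).2) _
      (hinvE _ (Finset.mem_product.mp hp).2)
  have hb3 : ∀ p ∈ R ×ˢ R, ((A3 p).ncard : ℝ) ≤ ε / c * n := by
    intro p hp
    change (((if p.1 = p.2 then ∅ else (σ p.2⁻¹) ⁻¹' {v | σ (p.1⁻¹ * p.2) v = v} :
      Set (Fin n))).ncard : ℝ) ≤ _
    split_ifs with h
    · rw [Set.ncard_empty, Nat.cast_zero]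
      positivity
    · have h2 : ((σ p.2⁻¹) ⁻¹' {v | σ (p.1⁻¹ * p.2) v = v}).ncard =
          {v | σ (p.1⁻¹ * p.2) v = v}.ncard :=
        Set.ncard_preimage_of_injective_subset_range (σ p.2⁻¹).injective
          (by rw [Set.range_eq_univ.mpr (σ p.2⁻¹).surjective]; exact Set.subset_univ _)
      rw [h2]
      refine hfix _ (hdivE _ (Finset.mem_product.mp hp).1 _ (Finset.mem_product.mp hp).2) ?_
      intro h3
      apply h
      rw [inv_mul_eq_one] at h3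
      exact h3
  have hun : ((⋃ p ∈ R ×ˢ R, (A1 p ∪ (A2 p ∪ A3 p))).ncard : ℝ) ≤
      ∑ _p ∈ R ×ˢ R, (3 * (ε / c * n)) := by
    have h2 : (⋃ p ∈ R ×ˢ R, (A1 p ∪ (A2 p ∪ A3 p))).ncard ≤
        ∑ p ∈ R ×ˢ R, (A1 p ∪ (A2 p ∪ A3 p)).ncard := Finset.set_ncard_biUnion_le _ _
    calc ((⋃ p ∈ R ×ˢ R, (A1 p ∪ (A2 p ∪ A3 p))).ncard : ℝ)
        ≤ ((∑ p ∈ R ×ˢ R, (A1 p ∪ (A2 p ∪ A3 p)).ncard : ℕ) : ℝ) := by exact_mod_cast h2
      _ = ∑ p ∈ R ×ˢ R, ((A1 p ∪ (A2 p ∪ A3 p)).ncard : ℝ) := by push_cast; rfl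
      _ ≤ ∑ _p ∈ R ×ˢ R, (3 * (ε / c * n)) := by
          refine Finset.sum_le_sum fun p hp => ?_
          have e1 := Set.ncard_union_le (A1 p) (A2 p ∪ A3 p)
          have e2 := Set.ncard_union_le (A2 p) (A3 p)
          have e3 : ((A1 p ∪ (A2 p ∪ A3 p)).ncard : ℝ) ≤
              (A1 p).ncard + ((A2 p).ncard + (A3 p).ncard) := by
            exact_mod_cast e1.trans (Nat.add_le_add_left e2 _)
          have := hb1 p hp
          have := hb2 p hp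
          have := hb3 p hp
          linarith
  rw [Finset.sum_const, nsmul_eq_mul, Finset.card_product] at hun
  push_cast at hun
  have hfin : (nb (fun v g => σ g⁻¹ v) R : ℝ) ≤
      A0.ncard + (⋃ p ∈ R ×ˢ R, (A1 p ∪ (A2 p ∪ A3 p))).ncard := by
    unfold nb
    have e1 := Set.ncard_le_ncard hsub (Set.toFinite _)
    exact_mod_cast e1.trans (Set.ncard_union_le _ _)
  calc (nb (fun v g => σ g⁻¹ v) R : ℝ)
      ≤ ε / c * n + (R.card : ℝ) * R.card * (3 * (ε / c * n)) := by linarith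
    _ = c * (ε / c * n) := by rw [hc]; ring
    _ = ε * n := by field_simp

end Pool.Agent.LT.H61
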