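import Pool.Agent.Helper61_LT.Stmts
import Pool.Agent.Helper61_LT.Tools

/-!
# LT: ZER. The alternating sum of the cut off determinants is zero.
-/

set_option autoImplicit false
set_option linter.unusedSectionVars false

namespace Pool.Agent.LT.H61

open Matrix Polynomial

variable {ι : Type} [Fintype ι] [DecidableEq ι]

theorem lcut_empty {α : Type} [Fintype α] [DecidableEq α] [IsEmpty α] (A : Matrix α α ℝ) (δ : ℝ) :
    Lcut A δ = 0 := by
  unfold Lcut
  rw [Matrix.charpoly_isEmpty]
  simp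

theorem lp_diag (dc : ι → ℕ) (d : Matrix ι ι ℝ) (hd : Hg dc dc d (-1)) (a b : ι)
    (h : dc a ≠ dc b) : Lp d a b = 0 := by
  unfold Lp
  rw [Matrix.add_apply, Matrix.mul_apply, Matrix.mul_apply]
  have h1 : ∑ c, d a c * dᵀ c b = 0 := by
    refine Finset.sum_eq_zero fun c _ => ?_
    by_contra hne
    have e1 := hd a c (left_ne_zero_of_mul hne)
    have e2 := hd b c (right_ne_zero_of_mul hne)
    omega
  have h2 : ∑ c, dᵀ a c * d c b = 0 := by
    refine Finset.sum_eq_zero fun c _ => ?_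
    by_contra hne
    have e1 := hd c a (left_ne_zero_of_mul hne)
    have e2 := hd c b (right_ne_zero_of_mul hne)
    omega
  rw [h1, h2, add_zero]

theorem sum_sub (P : ι → Prop) [DecidablePred P] (F : ι → ℝ) (h : ∀ j, ¬ P j → F j = 0) :
    ∑ j, F j = ∑ c : {x // P x}, F c.1 := by
  rw [← Finset.sum_filter_add_sum_filter_not Finset.univ P,
    Finset.sum_eq_zero (s := Finset.univ.filter fun x => ¬ P x)
      (fun x hx => h x (Finset.mem_filter.mp hx).2), add_zero]
  exact Finset.sum_subtype (Finset.univ.filter P) (by simp) F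

/-- The block of the Laplacian on the elements of parity `q`. -/
def Par (dc : ι → ℕ) (d : Matrix ι ι ℝ) (q : ℕ) :
    Matrix {x // dc x % 2 = q} {x // dc x % 2 = q} ℝ := (Lp d).submatrix Subtype.val Subtype.val

/-- The elements of degree `a` among those of parity `q`. -/
def parEquiv (dc : ι → ℕ) (q a : ℕ) (ha : a % 2 = q) :
    {i : {x // dc x % 2 = q} // dc i.1 = a} ≃ {x // dc x = a} where
  toFun i := ⟨i.1.1, i.2⟩
  invFun x := ⟨⟨x.1, by rw [x.2]; exact ha⟩, x.2⟩
  left_inv _ := rfl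
  right_inv _ := rfl

theorem par_charpoly (dc : ι → ℕ) (d : Matrix ι ι ℝ) (hd : Hg dc dc d (-1)) (q : ℕ) (δ : ℝ) :
    Lcut (Par dc d q) δ =
      ∑ a ∈ Finset.univ.image (fun i : {x // dc x % 2 = q} => dc i.1), Lcut (Lpp dc d a) δ := by
  have hb : (Par dc d q).BlockTriangular (fun i : {x // dc x % 2 = q} => dc i.1) := by
    intro i j hij
    exact lp_diag dc d hd i.1 j.1 (by simp only at hij; omega)
  have h1 := hb.charpoly
  unfold Lcut
  rw [h1, Polynomial.roots_prod _ _ (Finset.prod_ne_zero_iff.mpr fun a _ =>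
    (Matrix.charpoly_monic _).ne_zero), Multiset.map_bind, Multiset.sum_bind]
  change (∑ a ∈ _, _) = _
  refine Finset.sum_congr rfl fun a ha => ?_
  obtain ⟨i, _, hi⟩ := Finset.mem_image.mp ha
  have haq : a % 2 = q := by rw [← hi]; exact i.2
  have h2 : ((Par dc d q).toSquareBlock (fun i : {x // dc x % 2 = q} => dc i.1) a).charpoly =
      (Lpp dc d a).charpoly := by
    rw [← Matrix.charpoly_reindex (parEquiv dc q a haq)]
    rfl
  rw [h2]

theorem par_sum (n : ℕ) (dc : ι → ℕ) (hn : ∀ x, dc x ≤ n) (d : Matrix ι ι ℝ)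
    (hd : Hg dc dc d (-1)) (q : ℕ) (δ : ℝ) :
    Lcut (Par dc d q) δ =
      ∑ a ∈ (Finset.range (n + 1)).filter (fun a => a % 2 = q), Lcut (Lpp dc d a) δ := by
  rw [par_charpoly dc d hd]
  refine Finset.sum_subset ?_ ?_
  · intro a ha
    obtain ⟨i, _, hi⟩ := Finset.mem_image.mp ha
    have h1 := hn i.1
    have h2 := i.2
    rw [Finset.mem_filter, Finset.mem_range]
    subst hi
    exact ⟨by omega, h2⟩
  · intro a ha hna
    have : IsEmpty {x // dc x = a} := by
      refine ⟨fun x => hna ?_⟩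
      rw [Finset.mem_filter] at ha
      exact Finset.mem_image.mpr ⟨⟨x.1, by rw [x.2]; exact ha.2⟩, Finset.mem_univ _, x.2⟩
    exact lcut_empty _ _

theorem par_eq (dc : ι → ℕ) (d : Matrix ι ι ℝ) (hd : Hg dc dc d (-1)) (hdd : d * d = 0)
    (hcard : Fintype.card (Ev dc) = Fintype.card (Od dc)) :
    (Par dc d 0).charpoly = (Par dc d 1).charpoly := by
  have hDD : (d + dᵀ) * (d + dᵀ) = Lp d := by
    unfold Lp
    have h1 : dᵀ * dᵀ = 0 := by
      rw [← Matrix.transpose_mul, hdd, Matrix.transpose_zero]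
    rw [Matrix.add_mul, Matrix.mul_add, Matrix.mul_add, hdd, h1, zero_add, add_zero]
  have hodd : ∀ a b, dc a % 2 = dc b % 2 → (d + dᵀ) a b = 0 := by
    intro a b hab
    rw [Matrix.add_apply, Matrix.transpose_apply]
    have h1 : d a b = 0 := by
      by_contra hne
      have := hd a b hne
      omega
    have h2 : d b a = 0 := by
      by_contra hne
      have := hd b a hne
      omega
    rw [h1, h2, add_zero]
  let B0 : Matrix (Ev dc) (Od dc) ℝ := (d + dᵀ).submatrix Subtype.val Subtype.val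
  let B1 : Matrix (Od dc) (Ev dc) ℝ := (d + dᵀ).submatrix Subtype.val Subtype.val
  have h0 : Par dc d 0 = B0 * B1 := by
    ext a b
    change Lp d a.1 b.1 = _
    rw [← hDD, Matrix.mul_apply, Matrix.mul_apply,
      sum_sub (fun x => dc x % 2 = 1) (fun c => (d + dᵀ) a.1 c * (d + dᵀ) c b.1)]
    · rfl
    · intro c hc
      have := a.2
      rw [hodd a.1 c (by omega), zero_mul]
  have h1 : Par dc d 1 = B1 * B0 := by
    ext a b
    change Lp d a.1 b.1 = _
    rw [← hDD, Matrix.mul_apply, Matrix.mul_apply,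
      sum_sub (fun x => dc x % 2 = 0) (fun c => (d + dᵀ) a.1 c * (d + dᵀ) c b.1)]
    · rfl
    · intro c hc
      have := a.2
      rw [hodd a.1 c (by omega), zero_mul]
  rw [h0, h1]
  have h2 := Matrix.charpoly_mul_comm' B0 B1
  have h3 : Fintype.card (Od dc) = Fintype.card (Ev dc) := hcard.symm
  rw [h3] at h2
  exact (isRegular_X_pow _).left.eq_iff.mp h2

theorem zer : ZerStmt := by
  intro n C _ _ dc d δ hn hd hdd _ hcard
  have h0 := par_sum n dc hn d hd 0 δ
  have h1 := par_sum n dc hn d hd 1 δ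
  have h2 : Lcut (Par dc d 0) δ = Lcut (Par dc d 1) δ := by
    unfold Lcut
    rw [par_eq dc d hd hdd hcard]
  rw [← Finset.sum_filter_add_sum_filter_not (Finset.range (n + 1)) (fun a => a % 2 = 0)]
  have e0 : ∑ x ∈ (Finset.range (n + 1)).filter (fun a => a % 2 = 0),
      (-1) ^ x * Lcut (Lpp dc d x) δ = Lcut (Par dc d 0) δ := by
    rw [h0]
    refine Finset.sum_congr rfl fun x hx => ?_
    rw [(Nat.even_iff.mpr (Finset.mem_filter.mp hx).2).neg_one_pow, one_mul]
  have e1 : ∑ x ∈ (Finset.range (n + 1)).filter (fun a => ¬ a % 2 = 0),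
      (-1) ^ x * Lcut (Lpp dc d x) δ = -Lcut (Par dc d 1) δ := by
    rw [h1, ← Finset.sum_neg_distrib]
    have hs : (Finset.range (n + 1)).filter (fun a => ¬ a % 2 = 0) =
        (Finset.range (n + 1)).filter (fun a => a % 2 = 1) := by
      ext a
      rw [Finset.mem_filter, Finset.mem_filter]
      constructor
      · intro h
        exact ⟨h.1, by omega⟩
      · intro h
        exact ⟨h.1, by omega⟩
    rw [hs]
    refine Finset.sum_congr rfl fun x hx => ?_
    rw [(Nat.odd_iff.mpr (Finset.mem_filter.mp hx).2).neg_one_pow, neg_one_mul]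
  rw [e0, e1, h2, add_neg_cancel]

end Pool.Agent.LT.H61
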