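import Pool.Agent.Helper61_LT.Bet
import Pool.Agent.Helper61_LT.Sof
import Pool.Agent.Helper61_LT.Cur
import Pool.Agent.Helper61_LT.Zer
import Pool.Agent.Helper62_LT.FLT
import Pool.Agent.Helper62_LT.TOP
import Pool.Agent.Helper10_LT.Gdn
import Pool.Agent.Helper11_LT.Det
import Pool.Agent.Helper13_LT.Int
import Pool.Agent.Helper17_LT.Sod
import Pool.Agent.Helper29_LT.Bar
import Pool.Agent.Helper29_LT.Hlc
import Pool.Agent.Helper31_LT.Par
import Pool.Agent.Helper31_LT.Scl
import Pool.Agent.Helper34_LT.One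
import Pool.Agent.Helper47_LT.Sch
import Pool.Agent.Helper55_LT.Ems
import Pool.Agent.Helper55_LT.Hms
import Pool.Agent.Helper55_LT.Fin
import Pool.Agent.Helper59_LT.Mat
import Pool.Agent.Helper59_LT.Mom
import Pool.Agent.Helper66_LT.Cnt
import Pool.Agent.Helper69_LT.IMG
import Pool.Agent.Helper74_LT.Fms
import Pool.Agent.Helper74_LT.Lst
import Pool.Agent.Helper75_LT.Dvs
import Pool.Agent.Helper76_LT.Tms
import Pool.Agent.Helper89_LT.Lft
import Pool.Agent.Helper89_LT.Pol
import Pool.Agent.Helper89_LT.Hod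
import Pool.Agent.Helper90_LT.Two
import Pool.Agent.Helper91_LT.Lim
import Pool.Agent.Helper91_LT.Log
import Pool.Agent.Helper91_LT.Spe
import Pool.Agent.Helper91_LT.Uni
import Pool.Agent.Helper91_LT.Opr3

/-!
# LT: assembly
-/

set_option autoImplicit false

namespace Pool.Agent.LT.H61

open Matrix MeasureTheory

theorem fin_all : FinStmt :=
  H55.fin H29.bar (H75.dvs H47.sch) (H55.ems H74.lst H47.sch) (H74.fms H47.sch H10.gdn)
    (H55.hms H29.hlc H74.lst H47.sch H10.gdn) (H76.tms H29.hlc H74.lst H47.sch H10.gdn)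

theorem flt_all : FltStmt :=
  flt (H90.two (H34.one H89.hod H17.sod (LT59.mat (H13.int H11.det cur)) H89.lft) zer) cur
    H66.cnt H31.scl

theorem log_all : LogStmt :=
  H91.log sof (LT59.mom H10.gdn) H91.lim H66.cnt (H75.dvs H47.sch)

theorem top_all : TopStmt :=
  top sof LT.img fin_all flt_all H31.par (LT59.mom H10.gdn) H91.lim log_all

theorem bet_all : BetStmt :=
  bet sof LT.img fin_all (LT59.mom H10.gdn) H66.cnt

theorem main (G : Type) [Group G] (hG : Sofic G) (N : Subgroup G) (hN : N.Normal) (hinf : Infinite N) (ham : Amen N)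
    (C : Res G) :
    (∀ p, IsSpec (C.lapp p) (C.spec p)) ∧ (∀ p, C.spec p {0} = 0) ∧
      (∀ p, IntegrableOn Real.log (Set.Ioi 0) (C.spec p)) ∧ C.rho = 0 := by
  have hs : ∀ p, IsSpec (C.lapp p) (C.spec p) := fun p => H91.isSpec_spec C p
  have h0 : ∀ p, C.spec p {0} = 0 := fun p =>
    bet_all G hG N hN hinf ham C p (C.spec p) (hs p)
  have ht := top_all G hG N hN hinf ham C (Finset.univ.sup C.dim) C.spec
    (fun x => Finset.le_sup (Finset.mem_univ x)) hs h0
  refine ⟨hs, h0, ht.1, ?_⟩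
  unfold Res.rho Res.ldet
  rw [ht.2, mul_zero]

end Pool.Agent.LT.H61
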