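import Pool.Agent.Helper91_LT.Log
import Pool.Agent.Helper62_LT.FLT

/-!
# LT: BET. The L2-Betti numbers vanish.
-/

set_option autoImplicit false

namespace Pool.Agent.LT

open Matrix MeasureTheory

/-- BET: the L2-Betti numbers vanish. -/
def BetStmt : Prop := ∀ (G : Type) [Group G], Sofic G → ∀ (N : Subgroup G), N.Normal →
    Infinite N → Amen N → ∀ (C : Res G) (p : ℕ) (μ : Measure ℝ), IsSpec (C.lapp p) μ → μ {0} = 0

namespace H61

section lin

variable {ι κ α : Type} [Fintype ι] [Fintype κ] [Fintype α]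

/-- If the common kernel of three matrices is zero then the sum of the ranks is at least the
number of columns. -/
theorem card_le_ranks {β1 β2 β3 : Type} [Fintype β1] [Fintype β2] [Fintype β3]
    (A : Matrix β1 α ℝ) (B : Matrix β2 α ℝ) (C : Matrix β3 α ℝ)
    (h : ∀ x, A *ᵥ x = 0 → B *ᵥ x = 0 → C *ᵥ x = 0 → x = 0) :
    Fintype.card α ≤ A.rank + B.rank + C.rank := by
  let φ := (A.mulVecLin.rangeRestrict).prod
    ((B.mulVecLin.rangeRestrict).prod C.mulVecLin.rangeRestrict)
  have hφ : Function.Injective φ := by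
    rw [← LinearMap.ker_eq_bot, LinearMap.ker_eq_bot']
    intro x hx
    have h1 := congrArg Prod.fst hx
    have h2 := congrArg (fun z => z.2.1) hx
    have h3 := congrArg (fun z => z.2.2) hx
    refine h x ?_ ?_ ?_
    · simpa [φ] using congrArg Subtype.val h1
    · simpa [φ] using congrArg Subtype.val h2
    · simpa [φ] using congrArg Subtype.val h3
  have h4 := LinearMap.finrank_le_finrank_of_injective hφ
  rw [Module.finrank_prod, Module.finrank_prod, Module.finrank_pi] at h4
  unfold Matrix.rank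
  omega

variable [DecidableEq ι]

theorem ker_bound (dc : ι → ℕ) (d θ : Matrix ι ι ℝ) (f : Matrix κ ι ℝ) (h : Matrix ι κ ℝ) (r p : ℕ)
    (hr : (1 - h * f - d * θ - θ * d).rank ≤ r) :
    Fintype.card {x // dc x = p} ≤ (Lpp dc d p).rank + (Fintype.card κ + r) := by
  set P : Matrix ι {x // dc x = p} ℝ := (1 : Matrix ι ι ℝ).submatrix id Subtype.val with hP
  have hPP : Pᵀ * P = 1 := by
    ext i j
    rw [Matrix.mul_apply]
    simp only [hP, transpose_apply, submatrix_apply, id, Matrix.one_apply]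
    simp only [ite_mul, one_mul, zero_mul, Finset.sum_ite_eq', Finset.mem_univ, if_true]
    simp only [Subtype.ext_iff]
  have hL : Lpp dc d p = Pᵀ * Lp d * P := by
    ext i j
    unfold Lpp
    rw [Matrix.mul_apply]
    simp only [hP, transpose_apply, submatrix_apply, id, Matrix.mul_apply, Matrix.one_apply,
      ite_mul, one_mul, zero_mul, mul_ite, mul_one, mul_zero, Finset.sum_ite_eq',
      Finset.mem_univ, if_true]
  have h1 := card_le_ranks (Lpp dc d p) (f * P) ((1 - h * f - d * θ - θ * d) * P) ?_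
  · have h2 : (f * P).rank ≤ Fintype.card κ := Matrix.rank_le_card_height _
    have h3 : ((1 - h * f - d * θ - θ * d) * P).rank ≤ r :=
      (Matrix.rank_mul_le_left _ _).trans hr
    omega
  intro x hx1 hx2 hx3
  set y := P *ᵥ x with hy
  have e0 : x ⬝ᵥ (Lpp dc d p *ᵥ x) = (dᵀ *ᵥ y) ⬝ᵥ (dᵀ *ᵥ y) + (d *ᵥ y) ⬝ᵥ (d *ᵥ y) := by
    rw [hL, hy]
    unfold Lp
    rw [Matrix.mul_add, Matrix.add_mul, Matrix.add_mulVec, dotProduct_add]
    congr 1
    · rw [← Matrix.mulVec_mulVec, ← Matrix.mul_assoc Pᵀ, ← Matrix.mulVec_mulVec,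
        ← Matrix.mulVec_mulVec, Matrix.dotProduct_mulVec, Matrix.dotProduct_mulVec,
        ← Matrix.mulVec_transpose, ← Matrix.mulVec_transpose, transpose_transpose]
    · rw [← Matrix.mulVec_mulVec, ← Matrix.mul_assoc Pᵀ, ← Matrix.mulVec_mulVec,
        ← Matrix.mulVec_mulVec, Matrix.dotProduct_mulVec, Matrix.dotProduct_mulVec,
        ← Matrix.mulVec_transpose, ← Matrix.mulVec_transpose, transpose_transpose,
        transpose_transpose]
  rw [hx1, dotProduct_zero] at e0
  have n1 := dot_self_nonneg (dᵀ *ᵥ y)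
  have n2 := dot_self_nonneg (d *ᵥ y)
  have d1 : dᵀ *ᵥ y = 0 := by
    rw [← dotProduct_self_eq_zero]
    linarith
  have d2 : d *ᵥ y = 0 := by
    rw [← dotProduct_self_eq_zero]
    linarith
  rw [← Matrix.mulVec_mulVec, ← hy] at hx2 hx3
  rw [Matrix.sub_mulVec, Matrix.sub_mulVec, Matrix.sub_mulVec, Matrix.one_mulVec,
    ← Matrix.mulVec_mulVec, hx2, Matrix.mulVec_zero, sub_zero, ← Matrix.mulVec_mulVec,
    ← Matrix.mulVec_mulVec _ θ, d2, Matrix.mulVec_zero, sub_zero, sub_eq_zero] at hx3
  have d3 : y ⬝ᵥ y = 0 := by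
    conv_lhs => rw [hx3]
    rw [dotProduct_comm, Matrix.dotProduct_mulVec, ← Matrix.mulVec_transpose, ← hx3, d1,
      zero_dotProduct]
  rw [dotProduct_self_eq_zero] at d3
  have : Pᵀ *ᵥ y = x := by
    rw [hy, Matrix.mulVec_mulVec, hPP, Matrix.one_mulVec]
  rw [← this, d3, Matrix.mulVec_zero]

end lin

/-- The count of zeros and the small eigenvalues. -/
theorem hat_sum (hCnt : CntStmt) (ι : Type) [Fintype ι] [DecidableEq ι] (A : Matrix ι ι ℤ)
    (hA : (cst A).PosSemidef) (δ : ℝ) (h0 : 0 < δ) (h1 : δ < 1) (r : ℕ)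
    (hr : Fintype.card ι ≤ (cst A).rank + r) :
    ((cst A).charpoly.roots.map (H91.hat δ)).sum ≤ r + (cst A).trace / Real.log (1 / δ) := by
  have hl : 0 < Real.log (1 / δ) := Real.log_pos (by rw [lt_div_iff₀ h0]; linarith)
  have h2 := hCnt ι A hA
  have h3 := Flt.card_zero hA.1
  have h4 : ((cst A).charpoly.roots.map (H91.hat δ)).sum ≤
      (((cst A).charpoly.roots.filter fun x => x = 0).map fun _ => (1 : ℝ)).sum +
      ((((cst A).charpoly.roots.filter fun x => 0 < x ∧ x < 1).map fun x =>
        Real.log (1 / x)).sum) / Real.log (1 / δ) := by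
    rw [H91.filter_sum, H91.filter_sum, div_eq_mul_inv, ← Multiset.sum_map_mul_right,
      ← Multiset.sum_map_add]
    refine Multiset.sum_map_le_sum_map _ _ fun x hx => ?_
    have hx0 : 0 ≤ x := Flt.roots_nonneg hA x hx
    rcases eq_or_lt_of_le hx0 with h5 | h5
    · rw [← h5, H91.hat_zero]
      simp
    · rw [if_neg h5.ne', zero_add]
      have h6 : (0 : ℝ) ≤ (if 0 < x ∧ x < 1 then Real.log (1 / x) else 0) * (Real.log (1 / δ))⁻¹ := by
        refine mul_nonneg ?_ (inv_nonneg.mpr hl.le)
        split_ifs with h7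
        · exact Real.log_nonneg (by rw [le_div_iff₀ h5]; linarith [h7.2])
        · exact le_rfl
      rcases lt_or_ge x δ with h7 | h7
      · have h8 : H91.hat δ x ≤ 1 := by
          unfold H91.hat
          refine max_le zero_le_one ?_
          have : 0 ≤ x / δ := div_nonneg hx0 h0.le
          linarith
        refine h8.trans ?_
        rw [if_pos ⟨h5, by linarith⟩, ← div_eq_mul_inv, le_div_iff₀ hl, one_mul]
        exact Real.log_le_log (by positivity) (one_div_le_one_div_of_le h5 h7.le)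
      · have h8 : H91.hat δ x = 0 := by
          unfold H91.hat
          refine max_eq_left ?_
          have : 1 ≤ x / δ := by rwa [le_div_iff₀ h0, one_mul]
          linarith
        rw [h8]
        exact h6
  have h5 : (((cst A).charpoly.roots.filter fun x => x = 0).map fun _ => (1 : ℝ)).sum ≤ r := by
    rw [Multiset.map_const', Multiset.sum_replicate, nsmul_eq_mul, mul_one]
    exact_mod_cast (by omega : ((cst A).charpoly.roots.filter fun x => x = 0).card ≤ r)
  have h6 : ((((cst A).charpoly.roots.filter fun x => 0 < x ∧ x < 1).map fun x =>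
        Real.log (1 / x)).sum) / Real.log (1 / δ) ≤ (cst A).trace / Real.log (1 / δ) := by
    gcongr
  linarith

theorem beta_le (hSof : SofStmt) (hImg : ImgStmt) (hFin : FinStmt) (hMom : MomStmt)
    (hCnt : CntStmt) (G : Type) [Group G] (hG : Sofic G)
    (N : Subgroup G) (hN : N.Normal) (hinf : Infinite N) (ham : Amen N) (C : Res G) (p : ℕ)
    (μ : Measure ℝ) (hs : IsSpec (C.lapp p) μ) (ε : ℝ) (hε : 0 < ε) :
    (μ {0}).toReal ≤ 5 * ε := by
  classical
  have := hs.fin
  obtain ⟨K2, hK2⟩ := hs.supp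
  set n := Finset.univ.sup C.dim with hn
  have hle : ∀ x, C.dim x ≤ n := fun x => Finset.le_sup (Finset.mem_univ x)
  obtain ⟨S, hS⟩ := hFin G C n hle
  obtain ⟨Q, RI, εI, hεI, hI⟩ := hImg G N hN hinf ham S n ε hε
  obtain ⟨K1, RF, hK1, MF, hF⟩ := hS Q
  set K : ℝ := max (max (2 * K1 ^ 2) (Fintype.card C.X)) (max K2 1) with hKdef
  have hK : 1 ≤ K := (le_max_right _ _).trans (le_max_right _ _)
  have hKX : (Fintype.card C.X : ℝ) ≤ K := (le_max_right _ _).trans (le_max_left _ _)
  have hKK : 2 * K1 ^ 2 ≤ K := (le_max_left _ _).trans (le_max_left _ _)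
  have hsupp : μ (Set.Icc 0 K)ᶜ = 0 :=
    measure_mono_null (Set.compl_subset_compl.mpr
      (Set.Icc_subset_Icc_right ((le_max_left K2 1).trans (le_max_right _ _)))) hK2
  -- choice of the scale
  set T : ℝ := ((tr1 (C.lapp p) : ℤ) : ℝ) with hT
  obtain ⟨L, hL⟩ : ∃ L : ℝ, 0 < L ∧ (|T| + ε) / L ≤ ε := by
    refine ⟨(|T| + ε) / ε, by positivity, ?_⟩
    rw [div_div_eq_mul_div, mul_comm, mul_div_assoc, div_self (by positivity), mul_one]
  set δ : ℝ := Real.exp (-L) with hδ
  have hδ0 : 0 < δ := Real.exp_pos _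
  have hδ1 : δ < 1 := by
    rw [hδ, Real.exp_lt_one_iff]
    linarith [hL.1]
  have hlog : Real.log (1 / δ) = L := by
    rw [hδ, one_div, Real.log_inv, Real.log_exp, neg_neg]
  obtain ⟨k1, η1, hη1, hl1⟩ := H91.lim μ K inferInstance hK hsupp (H91.hat δ)
    (H91.hat_cont δ) ε hε
  choose R' M hM using fun k => hMom G C RF p k
  let R2 : Finset G := RI ∪ (RF ∪ (Finset.range (k1 + 2)).biUnion R')
  let M2 : ℕ := MF + ∑ k ∈ Finset.range (k1 + 2), M k
  set η := min εI (min η1 ε / (M2 + 1)) with hη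
  have hηpos : 0 < η := lt_min hεI (by positivity)
  obtain ⟨m, a, hm, hbij, hnb⟩ := hSof G hG R2 η hηpos
  have hm0 : (0 : ℝ) < m := by exact_mod_cast hm
  have hnbI : (nb a RI : ℝ) ≤ εI * m := by
    have h1 : nb a RI ≤ nb a R2 := H91.nb_mono a Finset.subset_union_left
    calc (nb a RI : ℝ) ≤ nb a R2 := by exact_mod_cast h1
      _ ≤ η * m := hnb
      _ ≤ εI * m := by
          gcongr
          exact min_le_left _ _
  have hnbM : ∀ (R : Finset G) (M' : ℕ), R ⊆ R2 → M' ≤ M2 →
      (M' : ℝ) * nb a R ≤ min η1 ε * m := by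
    intro R M' hR hM'
    have h1 : nb a R ≤ nb a R2 := H91.nb_mono a hR
    have h2 : (nb a R : ℝ) ≤ min η1 ε / (M2 + 1) * m := by
      calc (nb a R : ℝ) ≤ nb a R2 := by exact_mod_cast h1
        _ ≤ η * m := hnb
        _ ≤ _ := by
            gcongr
            exact min_le_right _ _
    have h3 : (M' : ℝ) ≤ M2 := by exact_mod_cast hM'
    have hmin : 0 < min η1 ε := lt_min hη1 hε
    calc (M' : ℝ) * nb a R ≤ (M2 + 1) * (min η1 ε / (M2 + 1) * m) := by
          gcongr
          linarith
      _ = min η1 ε * m := by field_simp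
  obtain ⟨c, hc1, hc2⟩ := hI (Fin m) a hbij (by rw [Fintype.card_fin]; exact hnbI)
  rw [Fintype.card_fin] at hc2
  have hfinite : (Im a S c n).Finite :=
    (List.finite_length_le (Fin m) (n + 1)).subset fun l hl => hl.2.1
  have : Fintype (Im a S c n) := hfinite.fintype
  obtain ⟨e, f, h, θ, hdat, -⟩ := hF (Fin m) a c hbij hc1
  have hcardIm : (Fintype.card (Im a S c n) : ℝ) ≤ ε * m := by
    rw [← Nat.card_eq_fintype_card]
    exact hc2
  set A := H91.LZ (fun v : Fin m × C.X => C.dim v.2) (dV C a RF) p with hAdef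
  have hA : cst A = Lpp (fun v : Fin m × C.X => C.dim v.2) (cst (dV C a RF)) p := H91.cst_LZ _ _ _
  have hpos : (cst A).PosSemidef := by
    rw [hA]
    exact H91.lpp_posSemidef _ _ _
  have hbd : Bd (cst A) K := by
    rw [hA]
    exact (H91.lpp_bd _ _ _ (by linarith) hdat.bd).mono (by positivity) hKK
  have hmom : ∀ k < k1 + 2, |((cst A) ^ k).trace - m * (tr1 (C.lapp p ^ k) : ℝ)| ≤
      min η1 ε * m := by
    intro k hk
    rw [hA]
    have h1 := hM k (Fin m) a hbij
    rw [Fintype.card_fin] at h1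
    refine h1.trans (hnbM _ _ ?_ ?_)
    · intro g hg
      refine Finset.mem_union_right _ (Finset.mem_union_right _ ?_)
      exact Finset.mem_biUnion.mpr ⟨k, Finset.mem_range.mpr hk, hg⟩
    · have : M k ≤ ∑ k ∈ Finset.range (k1 + 2), M k :=
        Finset.single_le_sum (f := M) (fun _ _ => Nat.zero_le _) (Finset.mem_range.mpr hk)
      omega
  have hcard : (Fintype.card {x : Fin m × C.X // C.dim x.2 = p} : ℝ) ≤ K * m := by
    have h1 : Fintype.card {x : Fin m × C.X // C.dim x.2 = p} ≤ m * Fintype.card C.X := by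
      refine (Fintype.card_subtype_le _).trans ?_
      rw [Fintype.card_prod, Fintype.card_fin]
    calc (Fintype.card {x : Fin m × C.X // C.dim x.2 = p} : ℝ) ≤ ((m * Fintype.card C.X : ℕ) : ℝ) :=
          by exact_mod_cast h1
      _ = (Fintype.card C.X : ℝ) * m := by push_cast; ring
      _ ≤ K * m := by gcongr
  have h1 := hl1 {x : Fin m × C.X // C.dim x.2 = p} (cst A) m hcard hpos hbd fun k hk => by
    rw [hs.mom]
    refine (hmom k (by omega)).trans ?_
    gcongr
    exact min_le_left _ _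
  have h2 := hmom 1 (by omega)
  simp only [pow_one] at h2
  have h3 := hat_sum hCnt _ A hpos δ hδ0 hδ1 (Fintype.card (Im a S c n) + MF * nb a RF) (by
    rw [hA]
    refine ker_bound _ _ (cst θ) (cst f) (cst h) _ _ ?_
    have h4 := hdat.ho
    rwa [cst_sub, cst_sub, cst_sub, cst_one, cst_mul, cst_mul, cst_mul] at h4)
  rw [hlog] at h3
  have h4 : (((Fintype.card (Im a S c n) + MF * nb a RF : ℕ) : ℝ)) ≤ 2 * ε * m := by
    push_cast
    have h5 := hnbM RF MF (fun g hg => Finset.mem_union_right _ (Finset.mem_union_left _ hg))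
      (Nat.le_add_right _ _)
    have h6 : min η1 ε * m ≤ ε * m := by
      gcongr
      exact min_le_right _ _
    linarith
  have h5 : (cst A).trace / L ≤ ε * m := by
    have h6 : (cst A).trace ≤ (|T| + ε) * m := by
      have h7 := (abs_le.mp h2).2
      have h8 : min η1 ε * m ≤ ε * m := by
        gcongr
        exact min_le_right _ _
      have h9 : m * T ≤ |T| * m := by
        rw [mul_comm]
        gcongr
        exact le_abs_self _
      linarith
    calc (cst A).trace / L ≤ (|T| + ε) * m / L := by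
          have := hL.1
          gcongr
      _ = (|T| + ε) / L * m := by ring
      _ ≤ ε * m := by
          gcongr
          exact hL.2
  have h6 : (μ {0}).toReal ≤ ∫ x, H91.hat δ x ∂μ := by
    have h7 : ∫ x, Set.indicator {0} (fun _ => (1 : ℝ)) x ∂μ = (μ {0}).toReal := by
      rw [integral_indicator (measurableSet_singleton 0)]
      simp [Measure.real]
    rw [← h7]
    refine integral_mono ?_ ?_ ?_
    · exact (integrable_const (1 : ℝ)).indicator (measurableSet_singleton 0)
    · exact H91.integrable_of_supp hsupp (H91.hat_cont _)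
    · intro x
      by_cases hx : x = 0
      · subst hx
        simp [H91.hat_zero]
      · rw [Set.indicator_of_notMem (by simpa using hx)]
        exact H91.hat_nonneg _ _
  have h7 := (abs_le.mp h1).1
  have h8 : m * (μ {0}).toReal ≤ m * (5 * ε) := by
    have h9 : (m : ℝ) * (μ {0}).toReal ≤ m * ∫ x, H91.hat δ x ∂μ := by gcongr
    linarith
  exact le_of_mul_le_mul_left h8 hm0

theorem bet (hSof : SofStmt) (hImg : ImgStmt) (hFin : FinStmt) (hMom : MomStmt)
    (hCnt : CntStmt) : BetStmt := by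
  intro G _ hG N hN hinf ham C p μ hs
  have := hs.fin
  have h1 : (μ {0}).toReal ≤ 0 := by
    refine le_of_forall_pos_le_add fun ε hε => ?_
    have := beta_le hSof hImg hFin hMom hCnt G hG N hN hinf ham C p μ hs (ε / 5) (by positivity)
    linarith
  have h2 : (μ {0}).toReal = 0 := le_antisymm h1 ENNReal.toReal_nonneg
  rcases (ENNReal.toReal_eq_zero_iff _).mp h2 with h | h
  · exact h
  · exact absurd h (measure_ne_top μ _)

end H61

end Pool.Agent.LT
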