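import Mathlib

/-!
# LT: vanishing of the L2-torsion for sofic groups with an infinite amenable normal subgroup

Definitions. Paper: /team-store/PAPER_LT61.md.
-/

set_option autoImplicit false

namespace Pool.Agent.LT

open Matrix MeasureTheory

/-! ### Group rings, trace, spectral measure -/

section group

variable {G : Type} [Group G]

/-- The involution of the group ring. -/
noncomputable def inv1 (a : MonoidAlgebra ℤ G) : MonoidAlgebra ℤ G :=
  MonoidAlgebra.ofCoeff (a.coeff.mapDomain fun g => g⁻¹)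

/-- The adjoint matrix. -/
noncomputable def adj {X Y : Type} (A : Matrix X Y (MonoidAlgebra ℤ G)) :
    Matrix Y X (MonoidAlgebra ℤ G) := fun y x => inv1 (A x y)

/-- The von Neumann trace of a square matrix over the group ring. -/
noncomputable def tr1 {X : Type} [Fintype X] (A : Matrix X X (MonoidAlgebra ℤ G)) : ℤ :=
  ∑ x, (A x x).coeff 1

/-- The augmentation of the group ring. -/
noncomputable def aug1 (a : MonoidAlgebra ℤ G) : ℤ := a.coeff.sum fun _ c => c

end group

/-- A finite free resolution, with bases, of the trivial module over `ℤ[G]` (left modules, the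
elements of the free module on the set `X` of cells are row vectors). For a finite CW model of the
classifying space of `G`, `X` is the set of cells, `dim` the dimension, `bd` the boundary matrix of
the cellular chain complex of the universal cover and `aug` is `1` on the vertices. -/
structure Res (G : Type) [Group G] where
  /-- the cells -/
  X : Type
  /-- there are finitely many cells -/
  fin : Fintype X
  /-- decidable equality -/
  dec : DecidableEq X
  /-- the dimension of a cell -/
  dim : X → ℕ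
  /-- the boundary: `x ↦ ∑ y, bd x y • y` -/
  bd : Matrix X X (MonoidAlgebra ℤ G)
  /-- the augmentation -/
  aug : X → ℤ
  bd_dim : ∀ x y, bd x y ≠ 0 → dim x = dim y + 1
  aug_dim : ∀ x, aug x ≠ 0 → dim x = 0
  exact : ∀ z : X → MonoidAlgebra ℤ G,
    (z ᵥ* bd = 0 ∧ ∑ x, aug1 (z x) * aug x = 0) ↔ ∃ y : X → MonoidAlgebra ℤ G, y ᵥ* bd = z
  aug_surj : ∃ z : X → MonoidAlgebra ℤ G, ∑ x, aug1 (z x) * aug x = 1

attribute [instance] Res.fin Res.dec

section res

variable {G : Type} [Group G]

/-- The combinatorial Laplacian (all degrees together). -/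
noncomputable def Res.lap (C : Res G) : Matrix C.X C.X (MonoidAlgebra ℤ G) :=
  C.bd * adj C.bd + adj C.bd * C.bd

/-- The combinatorial Laplacian in degree `p`. -/
noncomputable def Res.lapp (C : Res G) (p : ℕ) :
    Matrix {x // C.dim x = p} {x // C.dim x = p} (MonoidAlgebra ℤ G) :=
  C.lap.submatrix Subtype.val Subtype.val

/-- `μ` is the spectral measure of `A` with respect to the von Neumann trace (`A` is a positive
selfadjoint matrix over the group ring): the measure with bounded support in `[0, ∞)` whose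
moments are the traces of the powers of `A`. -/
structure IsSpec {X : Type} [Fintype X] [DecidableEq X] (A : Matrix X X (MonoidAlgebra ℤ G))
    (μ : Measure ℝ) : Prop where
  fin : IsFiniteMeasure μ
  supp : ∃ K : ℝ, μ (Set.Icc 0 K)ᶜ = 0
  mom : ∀ k : ℕ, ∫ x, x ^ k ∂μ = (tr1 (A ^ k) : ℝ)

/-- The spectral measure of the Laplacian in degree `p` (it exists and is unique). -/
noncomputable def Res.spec (C : Res G) (p : ℕ) : Measure ℝ :=
  open Classical in if h : ∃ μ, IsSpec (C.lapp p) μ then h.choose else 0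

/-- The L2-Betti number: the mass of the spectral measure at zero. -/
noncomputable def Res.b2 (C : Res G) (p : ℕ) : ℝ := (C.spec p).real {0}

/-- The logarithm of the Fuglede-Kadison determinant of the Laplacian in degree `p`. -/
noncomputable def Res.ldet (C : Res G) (p : ℕ) : ℝ := ∫ x in Set.Ioi 0, Real.log x ∂(C.spec p)

/-- The L2-torsion. -/
noncomputable def Res.rho (C : Res G) : ℝ :=
  -(1 / 2) * ∑ p ∈ Finset.range (Finset.univ.sup C.dim + 1), (-1) ^ p * (p : ℝ) * C.ldet p

end res

/-- Sofic groups. -/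
def Sofic (G : Type) [Group G] : Prop := ∀ (E : Finset G) (ε : ℝ), 0 < ε →
  ∃ (n : ℕ) (σ : G → Equiv.Perm (Fin n)), 0 < n ∧
    (∀ g ∈ E, ∀ h ∈ E, ({v | σ g (σ h v) ≠ σ (g * h) v}.ncard : ℝ) ≤ ε * n) ∧
    ∀ g ∈ E, g ≠ 1 → ({v | σ g v = v}.ncard : ℝ) ≤ ε * n

/-- Amenable groups (Foelner). -/
def Amen (N : Type) [Group N] : Prop := ∀ (T : Finset N) (ε : ℝ), 0 < ε →
  ∃ F : Finset N, F.Nonempty ∧ ∀ t ∈ T, ({f | f ∈ F ∧ t * f ∉ F}.ncard : ℝ) ≤ ε * F.card

/-! ### Chains -/

/-- Linear extension. -/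
noncomputable def lin {A B : Type} (F : A → (B →₀ ℤ)) (z : A →₀ ℤ) : B →₀ ℤ :=
  z.sum fun a k => k • F a

/-- Boundary of a list (augmented: the boundary of `[a]` is `[]`). -/
noncomputable def lbd {A : Type} : List A → (List A →₀ ℤ)
  | [] => 0
  | a :: l => Finsupp.single l 1 - (lbd l).mapDomain (List.cons a)

/-- The prism operator: homotopy between the identity and `List.map c`. -/
noncomputable def prism {A : Type} (c : A → A) : List A → (List A →₀ ℤ)
  | [] => 0
  | a :: l => Finsupp.single (a :: c a :: l.map c) 1 - (prism c l).mapDomain (List.cons a)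

section res2

variable {G : Type} [Group G]

/-- The boundary of the cell `x`, as a chain on `G × X`. -/
noncomputable def Res.row (C : Res G) (x : C.X) : G × C.X →₀ ℤ :=
  ∑ y, (C.bd x y).coeff.mapDomain fun g => (g, y)

/-- Left translation of chains. -/
noncomputable def trl {X : Type} (g : G) (z : G × X →₀ ℤ) : G × X →₀ ℤ :=
  z.mapDomain fun p => (g * p.1, p.2)

/-- The boundary of the chains of the universal cover. -/
noncomputable def Res.bdc (C : Res G) (p : G × C.X) : G × C.X →₀ ℤ := trl p.1 (C.row p.2)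

/-! ### Finite models: `a v g` is `v · g` -/

variable {V : Type}

/-- Points where `a` is an action of the finite set `R`, and free. -/
def Gd (a : V → G → V) (R : Finset G) : Set V :=
  {v | a v 1 = v ∧ (∀ g ∈ R, ∀ h ∈ R, a (a v g) h = a v (g * h)) ∧
    ∀ g ∈ R, ∀ h ∈ R, a v g = a v h → g = h}

/-- Number of bad points. -/
noncomputable def nb (a : V → G → V) (R : Finset G) : ℕ := (Gd a R)ᶜ.ncard

/-- Good points whose neighbours are good, up to order `k`. -/
def Gdn (a : V → G → V) (R : Finset G) : ℕ → Set V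
  | 0 => Gd a R
  | k + 1 => {v | v ∈ Gd a R ∧ ∀ h ∈ R, a v h ∈ Gdn a R k}

/-- The chain `z` at the point `v`. -/
noncomputable def bet {X : Type} (a : V → G → V) (v : V) (z : G × X →₀ ℤ) : V × X →₀ ℤ :=
  z.mapDomain fun p => (a v p.1, p.2)

open Classical in
/-- The differential of the finite model of the resolution `C`: column `(v, x)` is the boundary of
`x` at the point `v` if `v` is good, and zero otherwise. Its square is zero. -/
noncomputable def dV (C : Res G) (a : V → G → V) (R : Finset G) :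
    Matrix (V × C.X) (V × C.X) ℤ := fun w v =>
  if v.1 ∈ Gdn a R (C.dim v.2) then (bet a v.1 (C.row v.2)) w else 0

/-- Lists whose entries are pairwise related by elements of `S`. -/
def Sm (a : V → G → V) (S : Finset G) : Set (List V) :=
  {l | ∀ u ∈ l, ∀ w ∈ l, ∃ s ∈ S, w = a u s}

/-- The simplices of the coarse complex: images under `c` of the `S`-small lists. -/
def Im (a : V → G → V) (S : Finset G) (c : V → V) (n : ℕ) : Set (List V) :=
  {l | l ≠ [] ∧ l.length ≤ n + 1 ∧ ∃ l' ∈ Sm a S, l = l'.map c}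

/-- The degree of a list. -/
def ldg (l : List V) : ℕ := l.length - 1

/-- The boundary of the coarse complex. -/
noncomputable def eM (a : V → G → V) (S : Finset G) (c : V → V) (n : ℕ) :
    Matrix (Im a S c n) (Im a S c n) ℤ := fun l' l => lbd l.1 l'.1

open Classical in
/-- The map from the resolution to the coarse complex. -/
noncomputable def fM (C : Res G) (φ : C.X → (List G →₀ ℤ)) (a : V → G → V) (R S : Finset G)
    (c : V → V) (n : ℕ) : Matrix (Im a S c n) (V × C.X) ℤ := fun l v =>
  if v.1 ∈ Gd a R then ((φ v.2).mapDomain (List.map fun g => c (a v.1 g))) l.1 else 0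

open Classical in
/-- The map from lists over `V` to the chains: `(w, w g_1, …, w g_p)` goes to the chain
`ψ (1, g_1, …, g_p)` at the point `w`, if `w` is good and the `g_i` are in `P`. -/
noncomputable def hL (C : Res G) (ψ : List G → (G × C.X →₀ ℤ)) (a : V → G → V)
    (P R : Finset G) : List V → (V × C.X →₀ ℤ)
  | [] => 0
  | w :: l => if h : w ∈ Gd a R ∧ ∃ gs : List G, (∀ g ∈ gs, g ∈ P) ∧ l = gs.map (a w) then
      bet a w (ψ (1 :: h.2.choose)) else 0

/-- The map from the coarse complex to the resolution. -/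
noncomputable def hM (C : Res G) (ψ : List G → (G × C.X →₀ ℤ)) (a : V → G → V)
    (P R S : Finset G) (c : V → V) (n : ℕ) : Matrix (V × C.X) (Im a S c n) ℤ := fun v l =>
  hL C ψ a P R l.1 v

open Classical in
/-- The homotopy. -/
noncomputable def tM (C : Res G) (φ : C.X → (List G →₀ ℤ)) (ψ : List G → (G × C.X →₀ ℤ))
    (θ : C.X → (G × C.X →₀ ℤ)) (a : V → G → V) (P R : Finset G) (c : V → V) :
    Matrix (V × C.X) (V × C.X) ℤ := fun w v =>
  if v.1 ∈ Gd a R then (bet a v.1 (θ v.2) - lin (hL C ψ a P R) (lin (prism c)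
    ((φ v.2).mapDomain (List.map (a v.1))))) w else 0

/-- The data of BAR: chain maps between the resolution `C` and the bar complex, and a homotopy. -/
structure BarD (C : Res G) (φ : C.X → (List G →₀ ℤ)) (ψ : List G → (G × C.X →₀ ℤ))
    (θ : C.X → (G × C.X →₀ ℤ)) : Prop where
  lφ : ∀ x, ∀ l ∈ (φ x).support, l.length = C.dim x + 1
  lψ : ∀ l, ∀ p ∈ (ψ l).support, l.length = C.dim p.2 + 1
  lθ : ∀ x, ∀ p ∈ (θ x).support, C.dim p.2 = C.dim x + 1
  eq : ∀ g l, ψ (l.map (g * ·)) = trl g (ψ l)
  cψ : ∀ l, lin C.bdc (ψ l) = lin ψ (lbd l)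
  cφ : ∀ x, C.dim x ≠ 0 →
    lin lbd (φ x) = lin (fun p => (φ p.2).mapDomain (List.map (p.1 * ·))) (C.row x)
  ho : ∀ x, Finsupp.single (1, x) 1 - lin ψ (φ x) =
    lin C.bdc (θ x) + lin (fun p => trl p.1 (θ p.2)) (C.row x)

end res2

/-! ### Real matrices -/

section mat

variable {α β ι : Type} [Fintype α] [Fintype β] [Fintype ι]

/-- The real matrix of an integral matrix. -/
def cst {α β : Type} (A : Matrix α β ℤ) : Matrix α β ℝ := A.map (Int.cast : ℤ → ℝ)

/-- The operator norm of `A` is at most `K`. -/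
def Bd (A : Matrix α β ℝ) (K : ℝ) : Prop :=
  ∀ x : β → ℝ, (A *ᵥ x) ⬝ᵥ (A *ᵥ x) ≤ K ^ 2 * (x ⬝ᵥ x)

/-- Sum of the squares of the entries. -/
def HS (A : Matrix α β ℤ) : ℝ := ∑ i, ∑ j, (A i j : ℝ) ^ 2

/-- `log det` with the small eigenvalues replaced by `δ`. -/
noncomputable def Lcut [DecidableEq ι] (A : Matrix ι ι ℝ) (δ : ℝ) : ℝ :=
  (A.charpoly.roots.map fun x => Real.log (max x δ)).sum

/-- Number of the eigenvalues less than `δ`. -/
noncomputable def zc [DecidableEq ι] (A : Matrix ι ι ℝ) (δ : ℝ) : ℕ :=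
  (A.charpoly.roots.filter fun x => x < δ).card

/-- Homogeneous matrices: `A` has degree `j`. -/
def Hg {α β : Type} (da : α → ℕ) (db : β → ℕ) (A : Matrix α β ℝ) (j : ℤ) : Prop :=
  ∀ a b, A a b ≠ 0 → (da a : ℤ) = db b + j

/-- The Laplacian of a real matrix. -/
def Lp (d : Matrix ι ι ℝ) : Matrix ι ι ℝ := d * dᵀ + dᵀ * d

/-- The Laplacian in degree `p`. -/
def Lpp (dc : ι → ℕ) (d : Matrix ι ι ℝ) (p : ℕ) : Matrix {x // dc x = p} {x // dc x = p} ℝ :=
  (Lp d).submatrix Subtype.val Subtype.val

/-- The torsion with cut off `δ` of a complex (degrees at most `n`). -/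
noncomputable def tau [DecidableEq ι] (dc : ι → ℕ) (d : Matrix ι ι ℝ) (n : ℕ) (δ : ℝ) : ℝ :=
  -(1 / 2) * ∑ p ∈ Finset.range (n + 1), (-1) ^ p * (p : ℝ) * Lcut (Lpp dc d p) δ

/-- Even and odd elements. -/
abbrev Ev (dc : ι → ℕ) : Type := {x // dc x % 2 = 0}

/-- Odd elements. -/
abbrev Od (dc : ι → ℕ) : Type := {x // dc x % 2 = 1}

/-- The block from odd to even. -/
def eo (dc : ι → ℕ) (A : Matrix ι ι ℝ) : Matrix (Ev dc) (Od dc) ℝ :=
  A.submatrix Subtype.val Subtype.val

/-- The block from even to odd. -/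
def oe (dc : ι → ℕ) (A : Matrix ι ι ℝ) : Matrix (Od dc) (Ev dc) ℝ :=
  A.submatrix Subtype.val Subtype.val

end mat

/-- The data of a domination `f : C → D`, `h : D → C`, `1 - h f ≈ d θ + θ d`; the error is a rank. -/
structure Dat {C D : Type} [Fintype C] [Fintype D] [DecidableEq C] [DecidableEq D] (n : ℕ)
    (K : ℝ) (r : ℕ) (dc : C → ℕ) (dd : D → ℕ) (d : Matrix C C ℤ) (e : Matrix D D ℤ)
    (f : Matrix D C ℤ) (h : Matrix C D ℤ) (θ : Matrix C C ℤ) : Prop where
  le : ∀ x, dc x ≤ n
  gd : Hg dc dc (cst d) (-1)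
  ge : Hg dd dd (cst e) (-1)
  gf : Hg dd dc (cst f) 0
  gh : Hg dc dd (cst h) 0
  gt : Hg dc dc (cst θ) 1
  dd0 : d * d = 0
  ee0 : e * e = 0
  bd : Bd (cst d) K
  be : Bd (cst e) K
  bf : Bd (cst f) K
  bh : Bd (cst h) K
  bt : Bd (cst θ) K
  fd : (cst (f * d - e * f)).rank ≤ r
  hd : (cst (d * h - h * e)).rank ≤ r
  ho : (cst (1 - h * f - d * θ - θ * d)).rank ≤ r

end Pool.Agent.LT
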