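import Pool.Agent.Helper61_LT.Defs

/-!
# LT: statements of the modules. Proofs: /team-store/PAPER_LT61.md
-/

set_option autoImplicit false

namespace Pool.Agent.LT

open Matrix MeasureTheory

/-! ### Part L: linear algebra -/

/-- DET: `det (1 + A)` for a matrix of small rank. -/
def DetStmt : Prop := ∀ (ι : Type) [Fintype ι] [DecidableEq ι] (A : Matrix ι ι ℝ) (K : ℝ),
    0 ≤ K → Bd A K → |(1 + A).det| ≤ (1 + K) ^ A.rank

/-- INT: lower bound for the determinant of a matrix which is close (in rank) to an integral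
matrix. -/
def IntStmt : Prop := ∀ (ι : Type) [Fintype ι] [DecidableEq ι] (M : Matrix ι ι ℤ)
    (M' : Matrix ι ι ℝ) (K0 K1 : ℝ) (r : ℕ), 1 ≤ K0 → 1 ≤ K1 → Bd (cst M) K0 → M'.det ≠ 0 →
    Bd M'⁻¹ K1 → (cst M - M').rank ≤ r → 1 ≤ |M'.det| * (2 + K1 * (K0 + 1)) ^ (2 * r)

/-- CUR: maximal nonsingular minors. -/
def CurStmt : Prop := ∀ (α β : Type) [Fintype α] [Fintype β] [DecidableEq α] [DecidableEq β]
    (A : Matrix α β ℤ), ∃ (k : ℕ) (J : Fin k → α) (I : Fin k → β), Function.Injective J ∧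
    Function.Injective I ∧ (A.submatrix J I).det ≠ 0 ∧
    cst A = (cst A).submatrix id I * (cst (A.submatrix J I))⁻¹ * (cst A).submatrix J id

/-- LFT: the matrix `q(A)` where `q (x) = max x δ` on the eigenvalues of `A`. -/
def LftStmt : Prop := ∀ (ι : Type) [Fintype ι] [DecidableEq ι] (A : Matrix ι ι ℝ)
    (q : Polynomial ℝ) (δ K : ℝ), A.PosSemidef → 0 < δ →
    (∀ x ∈ A.charpoly.roots, q.eval x = max x δ) → 0 ≤ K → Bd A K →
    (Polynomial.aeval A q)ᵀ = Polynomial.aeval A q ∧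
    (Polynomial.aeval A q).det = Real.exp (Lcut A δ) ∧
    (A - Polynomial.aeval A q).rank ≤ zc A δ ∧ Bd (Polynomial.aeval A q) (max K δ) ∧
    Bd (Polynomial.aeval A q)⁻¹ (1 / δ) ∧
    ∀ x : ι → ℝ, δ * (x ⬝ᵥ x) ≤ x ⬝ᵥ (Polynomial.aeval A q *ᵥ x)

/-- POL: polar decomposition: `Z` is close to `Y` and `Zᵀ Z = q(Yᵀ Y)`. -/
def PolStmt : Prop := ∀ (ι κ : Type) [Fintype ι] [DecidableEq ι] [Fintype κ] [DecidableEq κ]
    (Y : Matrix ι κ ℝ) (q : Polynomial ℝ) (δ : ℝ), Fintype.card ι = Fintype.card κ → 0 < δ →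
    (∀ x ∈ (Yᵀ * Y).charpoly.roots, q.eval x = max x δ) →
    ∃ Z : Matrix ι κ ℝ, Zᵀ * Z = Polynomial.aeval (Yᵀ * Y) q ∧ (Y - Z).rank ≤ zc (Yᵀ * Y) δ

/-- CNT: an integral positive matrix has few small nonzero eigenvalues (their product is at least
one). -/
def CntStmt : Prop := ∀ (ι : Type) [Fintype ι] [DecidableEq ι] (A : Matrix ι ι ℤ),
    (cst A).PosSemidef →
    (((cst A).charpoly.roots.filter fun x => 0 < x ∧ x < 1).map fun x => Real.log (1 / x)).sum ≤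
      (cst A).trace

/-- SCL: choice of the scale. -/
def SclStmt : Prop := ∀ B ε δ1 K : ℝ, 0 < B → 0 < ε → 0 < δ1 → δ1 < 1 → 1 ≤ K →
    ∃ s : Finset ℝ, (∀ δ ∈ s, 0 < δ ∧ δ ≤ δ1) ∧ ∀ (Λ : Multiset ℝ) (N : ℕ), (∀ x ∈ Λ, 0 < x) →
      ((Λ.filter fun x => x < 1).map fun x => Real.log (1 / x)).sum ≤ B * N →
      ∃ δ ∈ s, ((Λ.filter fun x => x < δ).card : ℝ) * (Real.log K + Real.log (1 / δ)) ≤ ε * N

/-- HOD: the model of the torsion given by Hodge theory. -/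
def HodStmt : Prop := ∀ n : ℕ, ∃ c : ℕ, ∀ (C : Type) [Fintype C] [DecidableEq C] (dc : C → ℕ)
    (d : Matrix C C ℝ) (K δ : ℝ), (∀ x, dc x ≤ n) → Hg dc dc d (-1) → d * d = 0 → 1 ≤ K →
    Bd d K → 0 < δ → δ < 1 → Fintype.card (Ev dc) = Fintype.card (Od dc) →
    ∃ (γ : Matrix C C ℝ) (S : Matrix (Ev dc) (Od dc) ℝ) (T : Matrix (Od dc) (Ev dc) ℝ),
      Hg dc dc γ 1 ∧ S * T = 1 ∧ T * S = 1 ∧ Bd S (((K + 2) / δ) ^ c) ∧
      Bd T (((K + 2) / δ) ^ c) ∧ Bd γ (((K + 2) / δ) ^ c) ∧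
      (1 - d * γ - γ * d).rank ≤ zc (Lp d) δ ∧ (S - eo dc (d + γ)).rank ≤ c * zc (Lp d) δ ∧
      (T - oe dc (d + γ)).rank ≤ c * zc (Lp d) δ ∧
      ∀ E : Ev dc ≃ Od dc, Real.log |(S.submatrix id E).det| = tau dc d n δ

/-- SOD: the model of the torsion given by the domination (`Γ` is an approximate generalized
inverse of `e`). -/
def SodStmt : Prop := ∀ n c1 : ℕ, ∃ c : ℕ, ∀ (C D : Type) [Fintype C] [Fintype D]
    [DecidableEq C] [DecidableEq D] (dc : C → ℕ) (dd : D → ℕ) (d θ γ : Matrix C C ℝ)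
    (e Γ : Matrix D D ℝ) (f : Matrix D C ℝ) (h : Matrix C D ℝ)
    (S : Matrix (Ev dc) (Od dc) ℝ) (T : Matrix (Od dc) (Ev dc) ℝ) (r : ℕ) (Q : ℝ),
    (∀ x, dc x ≤ n) →
    Hg dc dc d (-1) → Hg dd dd e (-1) → Hg dd dc f 0 → Hg dc dd h 0 → Hg dc dc θ 1 →
    Hg dc dc γ 1 → Hg dd dd Γ 1 → d * d = 0 → e * e = 0 → (e * Γ * e - e).rank ≤ r →
    (f * d - e * f).rank ≤ r → (d * h - h * e).rank ≤ r → (1 - h * f - d * θ - θ * d).rank ≤ r →
    (1 - d * γ - γ * d).rank ≤ r → 2 ≤ Q → Bd d Q → Bd θ Q → Bd f Q →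
    Bd h Q → Bd Γ Q → Bd γ (Q ^ c1) → Bd S (Q ^ c1) → Bd T (Q ^ c1) → S * T = 1 → T * S = 1 →
    (S - eo dc (d + γ)).rank ≤ c1 * r → (T - oe dc (d + γ)).rank ≤ c1 * r →
    ∃ (S' : Matrix (Ev dc) (Od dc) ℝ) (T' : Matrix (Od dc) (Ev dc) ℝ),
      S' * T' = 1 ∧ T' * S' = 1 ∧ Bd S' (Q ^ c) ∧ Bd T' (Q ^ c) ∧
      (S' - eo dc (d + θ + h * Γ * f)).rank ≤ c * r ∧
      ∀ E : Ev dc ≃ Od dc, |(S'.submatrix id E).det| = |(S.submatrix id E).det|

/-- MAT: the integral matrix. -/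
def MatStmt : Prop := ∀ c1 : ℕ, ∃ c : ℕ, ∀ (C D : Type) [Fintype C] [Fintype D]
    [DecidableEq C] [DecidableEq D] (dc : C → ℕ) (d θ : Matrix C C ℤ)
    (e : Matrix D D ℤ) (f : Matrix D C ℤ) (h : Matrix C D ℤ)
    (S' : Matrix (Ev dc) (Od dc) ℝ) (T' : Matrix (Od dc) (Ev dc) ℝ) (k r : ℕ)
    (J I : Fin k → D) (m : Matrix (Fin k) (Fin k) ℝ) (Q : ℝ) (E : Ev dc ≃ Od dc),
    2 ≤ Q → Bd (cst d) Q → Bd (cst θ) Q → Bd (cst f) Q → Bd (cst h) Q → Bd (cst e) Q →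
    Function.Injective J → Function.Injective I → m.det ≠ 0 → Bd m⁻¹ Q →
    (cst (e.submatrix J I) - m).rank ≤ r →
    S' * T' = 1 → T' * S' = 1 → Bd S' (Q ^ c1) → Bd T' (Q ^ c1) →
    (S' - eo dc (cst (d + θ)) - (cst h).submatrix Subtype.val I * m⁻¹ *
      (cst f).submatrix J Subtype.val).rank ≤ c1 * r →
    -(c * r * Real.log Q) ≤ Real.log |(S'.submatrix id E).det| + Real.log |m.det|

/-- ONE: the one sided estimate. `J0, I0` and `J1, I1` are maximal minors of the parts of `e` with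
columns of even and of odd degree. -/
def OneStmt : Prop := ∀ n : ℕ, ∃ c : ℕ, ∀ (C D : Type) [Fintype C] [Fintype D]
    [DecidableEq C] [DecidableEq D] (K δ : ℝ) (r : ℕ) (dc : C → ℕ) (dd : D → ℕ)
    (d : Matrix C C ℤ) (e e0 e1 : Matrix D D ℤ) (f : Matrix D C ℤ) (h : Matrix C D ℤ)
    (θ : Matrix C C ℤ) (k0 k1 : ℕ) (J0 I0 : Fin k0 → D) (J1 I1 : Fin k1 → D), 1 ≤ K → 0 < δ →
    δ < 1 → Dat n K r dc dd d e f h θ → Fintype.card (Ev dc) = Fintype.card (Od dc) →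
    (∀ a b, e0 a b = if dd b % 2 = 0 then e a b else 0) → e1 = e - e0 →
    Function.Injective J0 → Function.Injective I0 → Function.Injective J1 →
    Function.Injective I1 → (e0.submatrix J0 I0).det ≠ 0 → (e1.submatrix J1 I1).det ≠ 0 →
    cst e0 = (cst e0).submatrix id I0 * (cst (e0.submatrix J0 I0))⁻¹ *
      (cst e0).submatrix J0 id →
    cst e1 = (cst e1).submatrix id I1 * (cst (e1.submatrix J1 I1))⁻¹ *
      (cst e1).submatrix J1 id →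
    -tau dc (cst d) n δ ≤ HS e + c *
      (r + zc (Lp (cst d)) δ + zc ((cst (e0.submatrix J0 I0))ᵀ * cst (e0.submatrix J0 I0)) δ +
        zc ((cst (e1.submatrix J1 I1))ᵀ * cst (e1.submatrix J1 I1)) δ) *
      (Real.log (K + 2) + Real.log (1 / δ))

/-- ZER: the alternating sum of the cut off determinants is zero. -/
def ZerStmt : Prop := ∀ (n : ℕ) (C : Type) [Fintype C] [DecidableEq C] (dc : C → ℕ)
    (d : Matrix C C ℝ) (δ : ℝ), (∀ x, dc x ≤ n) → Hg dc dc d (-1) → d * d = 0 → 0 < δ →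
    Fintype.card (Ev dc) = Fintype.card (Od dc) →
    ∑ p ∈ Finset.range (n + 1), (-1) ^ p * Lcut (Lpp dc d p) δ = 0

/-- TWO: the two sided estimate. -/
def TwoStmt : Prop := ∀ n : ℕ, ∃ c : ℕ, ∀ (C D : Type) [Fintype C] [Fintype D]
    [DecidableEq C] [DecidableEq D] (K δ : ℝ) (r : ℕ) (dc : C → ℕ) (dd : D → ℕ)
    (d : Matrix C C ℤ) (e e0 e1 : Matrix D D ℤ) (f : Matrix D C ℤ) (h : Matrix C D ℤ)
    (θ : Matrix C C ℤ) (k0 k1 : ℕ) (J0 I0 : Fin k0 → D) (J1 I1 : Fin k1 → D), 1 ≤ K → 0 < δ →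
    δ < 1 → Dat n K r dc dd d e f h θ → Fintype.card (Ev dc) = Fintype.card (Od dc) →
    (∀ a b, e0 a b = if dd b % 2 = 0 then e a b else 0) → e1 = e - e0 →
    Function.Injective J0 → Function.Injective I0 → Function.Injective J1 →
    Function.Injective I1 → (e0.submatrix J0 I0).det ≠ 0 → (e1.submatrix J1 I1).det ≠ 0 →
    cst e0 = (cst e0).submatrix id I0 * (cst (e0.submatrix J0 I0))⁻¹ *
      (cst e0).submatrix J0 id →
    cst e1 = (cst e1).submatrix id I1 * (cst (e1.submatrix J1 I1))⁻¹ *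
      (cst e1).submatrix J1 id →
    |tau dc (cst d) n δ| ≤ HS e + c *
      (r + zc (Lp (cst d)) δ + zc ((cst (e0.submatrix J0 I0))ᵀ * cst (e0.submatrix J0 I0)) δ +
        zc ((cst (e1.submatrix J1 I1))ᵀ * cst (e1.submatrix J1 I1)) δ) *
      (Real.log (K + 2) + Real.log (1 / δ))

/-- FLT: the finite theorem. -/
def FltStmt : Prop := ∀ (n : ℕ) (K ε δ1 : ℝ), 1 ≤ K → 0 < ε → 0 < δ1 → δ1 < 1 →
    ∃ (s : Finset ℝ) (r0 : ℝ), (∀ δ ∈ s, 0 < δ ∧ δ ≤ δ1) ∧ 0 < r0 ∧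
    ∀ (C D : Type) [Fintype C] [Fintype D] [DecidableEq C] [DecidableEq D] (N r : ℕ)
      (dc : C → ℕ) (dd : D → ℕ) (d : Matrix C C ℤ) (e : Matrix D D ℤ) (f : Matrix D C ℤ)
      (h : Matrix C D ℤ) (θ : Matrix C C ℤ), (r : ℝ) ≤ r0 * N → (Fintype.card C : ℝ) ≤ K * N →
      (Fintype.card D : ℝ) ≤ K * N → Dat n K r dc dd d e f h θ →
      Fintype.card C ≤ (Lp (cst d)).rank + r → Fintype.card (Ev dc) = Fintype.card (Od dc) →
      ∃ δ ∈ s, |tau dc (cst d) n δ| ≤ HS e + ε * N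

/-- PAR: almost acyclic complexes have almost as many even as odd cells. -/
def ParStmt : Prop := ∀ (C : Type) [Fintype C] [DecidableEq C] (dc : C → ℕ) (d : Matrix C C ℝ)
    (r : ℕ), Hg dc dc d (-1) → d * d = 0 → Fintype.card C ≤ (Lp d).rank + r →
    Fintype.card (Ev dc) ≤ Fintype.card (Od dc) + r ∧
      Fintype.card (Od dc) ≤ Fintype.card (Ev dc) + r

/-! ### Part G: groups -/

/-- SOF: sofic groups have finite models. -/
def SofStmt : Prop := ∀ (G : Type) [Group G], Sofic G → ∀ (R : Finset G) (ε : ℝ), 0 < ε →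
    ∃ (n : ℕ) (a : Fin n → G → Fin n), 0 < n ∧ (∀ g, Function.Bijective fun v => a v g) ∧
      (nb a R : ℝ) ≤ ε * n

/-- PRI: coarsening by random priorities. -/
def PriStmt : Prop := ∀ (G V : Type) [Group G] [Fintype V] (a : V → G → V)
    (Q T R : Finset G) (δ : ℝ), Q.Nonempty →
    (∀ t ∈ T, ({q | q ∈ Q ∧ t * q ∉ Q}.ncard : ℝ) ≤ δ * Q.card) → Q ⊆ R → T ⊆ R →
    (∀ t ∈ T, ∀ q ∈ Q, t * q ∈ R) →
    ∃ c : V → V, (∀ v, ∃ q ∈ Q, c v = a v q) ∧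
      (∑ t ∈ T, ({v | c (a v t) ≠ c v}.ncard : ℝ)) ≤
        T.card * (2 * δ * Fintype.card V + nb a R)

/-- IMG: few simplices in the coarse complex. -/
def ImgStmt : Prop := ∀ (G : Type) [Group G] (N : Subgroup G), N.Normal → Infinite N → Amen N →
    ∀ (S : Finset G) (n : ℕ) (κ : ℝ), 0 < κ → ∃ (Q R : Finset G) (ε : ℝ), 0 < ε ∧
    ∀ (V : Type) [Fintype V] (a : V → G → V), (∀ g, Function.Bijective fun v => a v g) →
      (nb a R : ℝ) ≤ ε * Fintype.card V →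
      ∃ c : V → V, (∀ v, ∃ q ∈ Q, c v = a v q) ∧
        ((Im a S c n).ncard : ℝ) ≤ κ * Fintype.card V

/-- BAR: the resolution is a retract of the bar complex up to homotopy. -/
def BarStmt : Prop := ∀ (G : Type) [Group G] (C : Res G), ∃ (φ : C.X → (List G →₀ ℤ))
    (ψ : List G → (G × C.X →₀ ℤ)) (θ : C.X → (G × C.X →₀ ℤ)), BarD C φ ψ θ

/-- LST: the list complex: square zero, naturality, prism. -/
def LstStmt : Prop := ∀ (A B : Type), (∀ l : List A, lin lbd (lbd l) = 0) ∧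
    (∀ (F : A → B) (l : List A), lbd (l.map F) = (lbd l).mapDomain (List.map F)) ∧
    (∀ (c : A → A) (l : List A), lin lbd (prism c l) + lin (prism c) (lbd l) =
      Finsupp.single (l.map c) 1 - Finsupp.single l 1) ∧
    (∀ (F : A → B) (c : A → A) (c' : B → B) (l : List A), (∀ x ∈ l, F (c x) = c' (F x)) →
      prism c' (l.map F) = (prism c l).mapDomain (List.map F)) ∧
    (∀ (l : List A), ∀ l' ∈ (lbd l).support, l'.Sublist l ∧ l'.length + 1 = l.length) ∧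
    (∀ (c : A → A) (l : List A), ∀ l' ∈ (prism c l).support, l'.length = l.length + 1 ∧
      ∀ x ∈ l', x ∈ l ∨ x ∈ l.map c) ∧
    (∀ (l : List A), (lbd l).sum (fun _ k => |k|) ≤ l.length) ∧
    ∀ (c : A → A) (l : List A), (prism c l).sum (fun _ k => |k|) ≤ l.length

/-- SCH: Schur test. -/
def SchStmt : Prop := ∀ (α β : Type) [Fintype α] [Fintype β] (A : Matrix α β ℤ) (K : ℝ),
    (∀ a, ∑ b, |(A a b : ℝ)| ≤ K) → (∀ b, ∑ a, |(A a b : ℝ)| ≤ K) → Bd (cst A) K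

/-- GDN: number of points which are not good of order `k`; a very good point is good of all
orders. -/
def GdnStmt : Prop := ∀ (G : Type) [Group G] (R : Finset G) (k : ℕ),
    (∃ M : ℕ, ∀ (V : Type) [Fintype V] (a : V → G → V), (∀ g, Function.Bijective fun v => a v g) →
      ((Gdn a R k)ᶜ).ncard ≤ M * nb a R) ∧
    ∃ R' : Finset G, R ⊆ R' ∧ ∀ (V : Type) (a : V → G → V), Gd a R' ⊆ Gdn a R k

/-- DVS: the differential of the finite model. -/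
def DvsStmt : Prop := ∀ (G : Type) [Group G] (C : Res G), ∃ (K : ℝ) (R : Finset G), 1 ≤ K ∧
    ∀ R' : Finset G, R ⊆ R' → ∀ (V : Type) [Fintype V] [DecidableEq V] (a : V → G → V),
      (∀ g, Function.Bijective fun v => a v g) →
      dV C a R' * dV C a R' = 0 ∧ Hg (fun v => C.dim v.2) (fun v => C.dim v.2)
        (cst (dV C a R')) (-1) ∧ Bd (cst (dV C a R')) K

/-- EMS: the coarse complex. -/
def EmsStmt : Prop := ∀ (G : Type) [Group G] (S Q : Finset G) (n : ℕ), ∃ K : ℝ, 1 ≤ K ∧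
    ∀ (V : Type) [Fintype V] (a : V → G → V) (c : V → V)
      [Fintype (Im a S c n)], (∀ g, Function.Bijective fun v => a v g) →
      (∀ v, ∃ q ∈ Q, c v = a v q) →
      eM a S c n * eM a S c n = 0 ∧
      Hg (fun l : Im a S c n => ldg l.1) (fun l => ldg l.1) (cst (eM a S c n)) (-1) ∧
      Bd (cst (eM a S c n)) K ∧ HS (eM a S c n) ≤ (n + 1) ^ 2 * (Im a S c n).ncard

/-- FMS: the chain map `f`. -/
def FmsStmt : Prop := ∀ (G : Type) [Group G] (C : Res G) (φ : C.X → (List G →₀ ℤ))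
    (ψ : List G → (G × C.X →₀ ℤ)) (θ : C.X → (G × C.X →₀ ℤ)), BarD C φ ψ θ → ∀ n : ℕ,
    (∀ x, C.dim x ≤ n) → ∃ S0 : Finset G, ∀ S Q : Finset G, S0 ⊆ S →
    ∃ (K : ℝ) (R : Finset G), 1 ≤ K ∧ ∀ R' : Finset G, R ⊆ R' → ∃ M : ℕ,
    ∀ (V : Type) [Fintype V] [DecidableEq V] (a : V → G → V) (c : V → V)
      [Fintype (Im a S c n)], (∀ g, Function.Bijective fun v => a v g) →
      (∀ v, ∃ q ∈ Q, c v = a v q) →
      Hg (fun l : Im a S c n => ldg l.1) (fun v => C.dim v.2) (cst (fM C φ a R' S c n)) 0 ∧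
      Bd (cst (fM C φ a R' S c n)) K ∧
      (cst (fM C φ a R' S c n * dV C a R' - eM a S c n * fM C φ a R' S c n)).rank ≤ M * nb a R'

/-- HLC: `hL` is a chain map near good points. -/
def HlcStmt : Prop := ∀ (G : Type) [Group G] (C : Res G) (φ : C.X → (List G →₀ ℤ))
    (ψ : List G → (G × C.X →₀ ℤ)) (θ : C.X → (G × C.X →₀ ℤ)), BarD C φ ψ θ → ∀ n : ℕ,
    (∀ x, C.dim x ≤ n) → ∀ P : Finset G, ∃ R : Finset G, P ⊆ R ∧ ∀ R' : Finset G, R ⊆ R' →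
    ∀ (V : Type) [Fintype V] [DecidableEq V] (a : V → G → V),
      (∀ g, Function.Bijective fun v => a v g) → ∀ w ∈ Gdn a R' (n + 2), ∀ gs : List G,
      gs.length ≤ n + 1 → (∀ x ∈ 1 :: gs, ∀ y ∈ 1 :: gs, x⁻¹ * y ∈ P) →
      hL C ψ a P R' (w :: gs.map (a w)) = bet a w (ψ (1 :: gs)) ∧
      ∀ z, ∑ u, dV C a R' z u * hL C ψ a P R' (w :: gs.map (a w)) u =
        lin (hL C ψ a P R') (lbd (w :: gs.map (a w))) z

/-- HMS: the chain map `h`. -/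
def HmsStmt : Prop := ∀ (G : Type) [Group G] (C : Res G) (φ : C.X → (List G →₀ ℤ))
    (ψ : List G → (G × C.X →₀ ℤ)) (θ : C.X → (G × C.X →₀ ℤ)), BarD C φ ψ θ → ∀ n : ℕ,
    (∀ x, C.dim x ≤ n) → ∀ S Q : Finset G, ∃ P0 : Finset G, ∀ P : Finset G, P0 ⊆ P →
    ∃ (K : ℝ) (R : Finset G), 1 ≤ K ∧ ∀ R' : Finset G, R ⊆ R' → ∃ M : ℕ,
    ∀ (V : Type) [Fintype V] [DecidableEq V] (a : V → G → V) (c : V → V)
      [Fintype (Im a S c n)], (∀ g, Function.Bijective fun v => a v g) →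
      (∀ v, ∃ q ∈ Q, c v = a v q) →
      Hg (fun v => C.dim v.2) (fun l : Im a S c n => ldg l.1) (cst (hM C ψ a P R' S c n)) 0 ∧
      Bd (cst (hM C ψ a P R' S c n)) K ∧
      (cst (dV C a R' * hM C ψ a P R' S c n - hM C ψ a P R' S c n * eM a S c n)).rank ≤
        M * nb a R'

/-- TMS: the homotopy. -/
def TmsStmt : Prop := ∀ (G : Type) [Group G] (C : Res G) (φ : C.X → (List G →₀ ℤ))
    (ψ : List G → (G × C.X →₀ ℤ)) (θ : C.X → (G × C.X →₀ ℤ)), BarD C φ ψ θ → ∀ n : ℕ,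
    (∀ x, C.dim x ≤ n) → ∃ S0 : Finset G, ∀ S Q : Finset G, S0 ⊆ S → ∃ P0 : Finset G,
    ∀ P : Finset G, P0 ⊆ P →
    ∃ (K : ℝ) (R : Finset G), 1 ≤ K ∧ ∀ R' : Finset G, R ⊆ R' → ∃ M : ℕ,
    ∀ (V : Type) [Fintype V] [DecidableEq V] (a : V → G → V) (c : V → V)
      [Fintype (Im a S c n)], (∀ g, Function.Bijective fun v => a v g) →
      (∀ v, ∃ q ∈ Q, c v = a v q) →
      Hg (fun v => C.dim v.2) (fun v => C.dim v.2) (cst (tM C φ ψ θ a P R' c)) 1 ∧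
      Bd (cst (tM C φ ψ θ a P R' c)) K ∧
      (cst (1 - hM C ψ a P R' S c n * fM C φ a R' S c n - dV C a R' * tM C φ ψ θ a P R' c -
        tM C φ ψ θ a P R' c * dV C a R')).rank ≤ M * nb a R'

/-- FIN: the data of the finite model. -/
def FinStmt : Prop := ∀ (G : Type) [Group G] (C : Res G) (n : ℕ), (∀ x, C.dim x ≤ n) →
    ∃ S : Finset G, ∀ Q : Finset G, ∃ (K : ℝ) (R : Finset G), 1 ≤ K ∧ ∃ M : ℕ,
    ∀ (V : Type) [Fintype V] [DecidableEq V] (a : V → G → V) (c : V → V)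
      [Fintype (Im a S c n)], (∀ g, Function.Bijective fun v => a v g) →
      (∀ v, ∃ q ∈ Q, c v = a v q) →
      ∃ (e : Matrix (Im a S c n) (Im a S c n) ℤ) (f : Matrix (Im a S c n) (V × C.X) ℤ)
        (h : Matrix (V × C.X) (Im a S c n) ℤ) (θ : Matrix (V × C.X) (V × C.X) ℤ),
        Dat n K (M * nb a R) (fun v => C.dim v.2) (fun l => ldg l.1) (dV C a R) e f h θ ∧
        HS e ≤ (n + 1) ^ 2 * (Im a S c n).ncard

/-- MOM: the moments of the finite model. -/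
def MomStmt : Prop := ∀ (G : Type) [Group G] (C : Res G) (R : Finset G) (p k : ℕ),
    ∃ (R' : Finset G) (M : ℕ), ∀ (V : Type) [Fintype V] [DecidableEq V] (a : V → G → V),
      (∀ g, Function.Bijective fun v => a v g) →
      |(Lpp (fun v : V × C.X => C.dim v.2) (cst (dV C a R)) p ^ k).trace -
        Fintype.card V * (tr1 (C.lapp p ^ k) : ℝ)| ≤ M * nb a R'

/-- LIM: convergence of moments and eigenvalues. -/
def LimStmt : Prop := ∀ (μ : Measure ℝ) (K : ℝ), IsFiniteMeasure μ → 1 ≤ K →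
    μ (Set.Icc 0 K)ᶜ = 0 → ∀ φ : ℝ → ℝ, Continuous φ → ∀ ε : ℝ, 0 < ε →
    ∃ (k0 : ℕ) (η : ℝ), 0 < η ∧ ∀ (ι : Type) [Fintype ι] [DecidableEq ι] (A : Matrix ι ι ℝ)
      (N : ℕ), (Fintype.card ι : ℝ) ≤ K * N → A.PosSemidef → Bd A K →
      (∀ k ≤ k0, |(A ^ k).trace - N * ∫ x, x ^ k ∂μ| ≤ η * N) →
      |(A.charpoly.roots.map φ).sum - N * ∫ x, φ x ∂μ| ≤ ε * N

/-- SPE: existence of the spectral measures. -/
def SpeStmt : Prop := ∀ (G : Type) [Group G] (C : Res G) (p : ℕ), ∃ μ, IsSpec (C.lapp p) μ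

/-- UNI: uniqueness of the spectral measures. -/
def UniStmt : Prop := ∀ (G : Type) [Group G] (X : Type) [Fintype X] [DecidableEq X]
    (A : Matrix X X (MonoidAlgebra ℤ G)) (μ ν : Measure ℝ), IsSpec A μ → IsSpec A ν → μ = ν

/-- LOG: determinant class. -/
def LogStmt : Prop := ∀ (G : Type) [Group G], Sofic G → ∀ (C : Res G) (p : ℕ) (μ : Measure ℝ),
    IsSpec (C.lapp p) μ → μ {0} = 0 → IntegrableOn Real.log (Set.Ioi 0) μ

/-- TOP: the main theorem for spectral measures. -/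
def TopStmt : Prop := ∀ (G : Type) [Group G], Sofic G → ∀ (N : Subgroup G), N.Normal →
    Infinite N → Amen N → ∀ (C : Res G) (n : ℕ) (μ : ℕ → Measure ℝ), (∀ x, C.dim x ≤ n) →
    (∀ p, IsSpec (C.lapp p) (μ p)) → (∀ p, μ p {0} = 0) →
    (∀ p, IntegrableOn Real.log (Set.Ioi 0) (μ p)) ∧
    ∑ p ∈ Finset.range (n + 1), (-1) ^ p * (p : ℝ) * ∫ x in Set.Ioi 0, Real.log x ∂(μ p) = 0

end Pool.Agent.LT
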